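import Mathlib

/-!
Asymptotic inequalities.
-/

set_option autoImplicit false

namespace Pool.Agent.H85.NE

open Filter

theorem ev_rpow (C u v : ℝ) (h : u < v) : ∀ᶠ x : ℝ in atTop, C * x ^ u ≤ x ^ v := by
  have h1 : ∀ᶠ x : ℝ in atTop, C ≤ x ^ (v - u) :=
    (tendsto_rpow_atTop (by linarith : 0 < v - u)).eventually_ge_atTop _
  filter_upwards [h1, eventually_gt_atTop 0] with x h1 h2
  calc C * x ^ u ≤ x ^ (v - u) * x ^ u := mul_le_mul_of_nonneg_right h1 (by positivity)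
    _ = x ^ v := by rw [← Real.rpow_add h2]; congr 1; ring

theorem ev_div_rpow (C A u v : ℝ) (hA : 0 < A) (h : u < v) :
    ∀ᶠ x : ℝ in atTop, C * x ^ u ≤ (x / A) ^ v := by
  filter_upwards [ev_rpow (C * A ^ v) u v h, eventually_gt_atTop 0] with x h1 h2
  rw [Real.div_rpow h2.le hA.le, le_div_iff₀ (by positivity)]
  linarith

theorem ev_log (C A c v : ℝ) (hA : 0 < A) (hv : 0 < v) :
    ∀ᶠ x : ℝ in atTop, C * Real.log x + c ≤ (x / A) ^ v := by
  have h1 : ∀ᶠ x : ℝ in atTop, ‖Real.log x‖ ≤ 1 * ‖x ^ (v / 2)‖ :=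
    (isLittleO_log_rpow_atTop (by positivity : 0 < v / 2)).bound (by norm_num)
  filter_upwards [h1, ev_div_rpow (|C| + |c|) A (v / 2) v hA (by linarith),
    eventually_ge_atTop 1] with x h1 h2 h3
  have h4 : 0 ≤ Real.log x := Real.log_nonneg h3
  have h5 : (1 : ℝ) ≤ x ^ (v / 2) := Real.one_le_rpow h3 (by positivity)
  rw [Real.norm_of_nonneg h4, Real.norm_of_nonneg (by positivity), one_mul] at h1
  refine le_trans ?_ h2
  have h6 : C * Real.log x ≤ |C| * x ^ (v / 2) :=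
    mul_le_mul (le_abs_self C) h1 h4 (abs_nonneg C)
  have h7 : c ≤ |c| * x ^ (v / 2) := by
    calc c ≤ |c| := le_abs_self c
      _ = |c| * 1 := (mul_one _).symm
      _ ≤ |c| * x ^ (v / 2) := mul_le_mul_of_nonneg_left h5 (abs_nonneg c)
  linarith

theorem ev_blocks (η : ℝ) (hη : 0 < η) : ∀ᶠ x : ℝ in atTop, ∀ t : ℕ,
    (t : ℝ) ≤ η / 8 * Real.log x → (24 : ℝ) ^ (t + 2) ≤ x ^ η := by
  have hL : Tendsto (fun x : ℝ => Real.log x) atTop atTop := Real.tendsto_log_atTop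
  filter_upwards [hL.eventually (eventually_ge_atTop (16 / η)), eventually_gt_atTop 0]
    with x h1 h3 t ht
  have h2 : 16 ≤ η * Real.log x := by
    rw [div_le_iff₀ hη] at h1
    linarith
  have h4 : Real.log 24 ≤ 4 := by
    have h5 : (24 : ℝ) ≤ 2 ^ 5 := by norm_num
    have h6 := Real.log_le_log (by norm_num) h5
    rw [Real.log_pow] at h6
    have h7 := Real.log_two_lt_d9
    push_cast at h6
    linarith
  have h8 : ((t + 2 : ℕ) : ℝ) * Real.log 24 ≤ Real.log x * η := by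
    have h9 : ((t + 2 : ℕ) : ℝ) * Real.log 24 ≤ ((t + 2 : ℕ) : ℝ) * 4 :=
      mul_le_mul_of_nonneg_left h4 (Nat.cast_nonneg _)
    push_cast at h9 ⊢
    linarith
  have h11 : (24 : ℝ) ^ (t + 2) = Real.exp (((t + 2 : ℕ) : ℝ) * Real.log 24) := by
    rw [← Real.log_pow, Real.exp_log (by positivity)]
  rw [h11, Real.rpow_def_of_pos h3]
  exact Real.exp_le_exp.2 h8

end Pool.Agent.H85.NE
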