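import Pool.Agent.H4.MH.Basic
import Pool.Agent.H25.NS.Prog

/-!
The dual of a circuit as a monotone program on the set of false variables.
-/

set_option autoImplicit false

namespace Pool.Agent.H85.NE

open Pool.Agent.H4.MH (Circuit)
open Pool.Agent.H25.NS (ASize AGate)
open H13 (Atom)

theorem asize_dual {X : Type} [Fintype X] {s : ℕ} (C : Circuit X s) (out : Fin s) :
    ASize (Fintype.card X + s) (fun y : Finset X => ¬ C.fn out (fun z => z ∉ y)) := by
  classical
  set N := Fintype.card X with hN
  let idx : X ≃ Fin N := Fintype.equivFin X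
  let g : ℕ → Finset X → Prop := fun i y =>
    if h : i < N then idx.symm ⟨i, h⟩ ∈ y
    else if h' : i - N < s then ¬ C.fn ⟨i - N, h'⟩ (fun z => z ∉ y) else False
  have g1 : ∀ (v : X) (y : Finset X), g (idx v).1 y ↔ v ∈ y := by
    intro v y
    show (if h : (idx v).1 < N then idx.symm ⟨(idx v).1, h⟩ ∈ y else _) ↔ v ∈ y
    rw [dif_pos (idx v).2]
    have : (⟨(idx v).1, (idx v).2⟩ : Fin N) = idx v := rfl
    rw [this, Equiv.symm_apply_apply]
  have g2 : ∀ (j : Fin s) (y : Finset X), g (N + j.1) y ↔ ¬ C.fn j (fun z => z ∉ y) := by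
    intro j y
    show (if h : N + j.1 < N then _ else if h' : N + j.1 - N < s then _ else _) ↔ _
    have h1 : ¬ (N + j.1 < N) := by omega
    have h2 : N + j.1 - N = j.1 := by omega
    rw [dif_neg h1, dif_pos (by rw [h2]; exact j.2)]
    have h3 : (⟨N + j.1 - N, by rw [h2]; exact j.2⟩ : Fin s) = j := Fin.ext h2
    rw [h3]
  refine ⟨g, ?_, N + out.1, by have := out.2; omega, fun y => (g2 out y).symm⟩
  intro i hi
  by_cases h : i < N
  · left
    refine Or.inr (Or.inr ⟨idx.symm ⟨i, h⟩, fun y => ?_⟩)
    have := g1 (idx.symm ⟨i, h⟩) y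
    rwa [Equiv.apply_symm_apply] at this
  · obtain ⟨j, hj⟩ : ∃ j : Fin s, i = N + j.1 := ⟨⟨i - N, by omega⟩, by
      show i = N + (i - N)
      omega⟩
    subst hj
    obtain ⟨S, T, hT, h1⟩ := C.gate j
    set L : Finset ℕ := (Finset.univ.filter fun v : X => v ∈ S).image (fun v => (idx v).1) ∪
      (Finset.univ.filter fun j' : Fin s => j' ∈ T).image (fun j' => N + j'.1) with hL
    have hLlt : ∀ a ∈ L, a < N + j.1 := by
      intro a ha
      rw [hL, Finset.mem_union, Finset.mem_image, Finset.mem_image] at ha
      rcases ha with ⟨v, _, rfl⟩ | ⟨j', hj', rfl⟩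
      · have := (idx v).2
        omega
      · have h2 := hT j' (Finset.mem_filter.1 hj').2
        have h3 : j'.1 < j.1 := h2
        omega
    have hmemV : ∀ v ∈ S, (idx v).1 ∈ L := fun v hv => Finset.mem_union_left _
      (Finset.mem_image_of_mem _ (Finset.mem_filter.2 ⟨Finset.mem_univ _, hv⟩))
    have hmemT : ∀ j' ∈ T, N + j'.1 ∈ L := fun j' hj' => Finset.mem_union_right _
      (Finset.mem_image_of_mem (fun j' : Fin s => N + j'.1)
        (Finset.mem_filter.2 ⟨Finset.mem_univ _, hj'⟩))
    rcases h1 with h1 | h1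
    · right; left
      refine ⟨L, hLlt, fun y => ?_⟩
      rw [g2, h1]
      constructor
      · intro hno
        by_contra hcon
        push Not at hcon
        refine hno ⟨fun v hv => ?_, fun j' hj' => ?_⟩
        · have := hcon _ (hmemV v hv)
          rwa [g1] at this
        · have := hcon _ (hmemT j' hj')
          rw [g2, not_not] at this
          exact this
      · rintro ⟨a, ha, hga⟩ ⟨h3, h4⟩
        rw [hL, Finset.mem_union, Finset.mem_image, Finset.mem_image] at ha
        rcases ha with ⟨v, hv, rfl⟩ | ⟨j', hj', rfl⟩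
        · rw [g1] at hga
          exact h3 v (Finset.mem_filter.1 hv).2 hga
        · rw [g2] at hga
          exact hga (h4 j' (Finset.mem_filter.1 hj').2)
    · right; right
      refine ⟨L, hLlt, fun y => ?_⟩
      rw [g2, h1]
      constructor
      · intro hno a ha
        rw [hL, Finset.mem_union, Finset.mem_image, Finset.mem_image] at ha
        rcases ha with ⟨v, hv, rfl⟩ | ⟨j', hj', rfl⟩
        · rw [g1]
          by_contra hcon
          exact hno (Or.inl ⟨v, (Finset.mem_filter.1 hv).2, hcon⟩)
        · rw [g2]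
          intro hcon
          exact hno (Or.inr ⟨j', (Finset.mem_filter.1 hj').2, hcon⟩)
      · rintro h3 (⟨v, hv, h4⟩ | ⟨j', hj', h4⟩)
        · have := h3 _ (hmemV v hv)
          rw [g1] at this
          exact h4 this
        · have := h3 _ (hmemT j' hj')
          rw [g2] at this
          exact this h4

end Pool.Agent.H85.NE
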