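import Pool.Agent.H85.NE.Hard
import Pool.Agent.H85.NE.Dual
import Pool.Agent.H25.NS.Block
import Pool.Agent.H25.NS.Final

/-!
The base frame and its hardness for circuits without quantified bits.
-/

set_option autoImplicit false

namespace Pool.Agent.H85.NE

open Finset
open H13 (cnt Neg Yp mem_Neg mem_Yp blk AppData)
open Pool.Agent.H25.NM (nc nc_congr nc_mono nc_le_card nc_add_nc_not nc_or_le)
open Pool.Agent.H25.NS
open Pool.Agent.H4.MH (Alt)

/-- the base frame: words in `d V` letters, and `m` further coordinates without choice -/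
def baseF {M d V : ℕ} (H : Fin M → Fin d → Fin V) (D m : ℕ) : Frame (Fin d ⊕ Fin m) where
  ι r := Fin (Sum.elim (fun _ => V) (fun _ => 1) r)
  A r := Fin (Sum.elim (fun _ => D) (fun _ => 1) r)
  Z := Fin M × (Fin d → Fin D)
  sc z r := match r with
    | Sum.inl κ => (H z.1 κ, z.2 κ)
    | Sum.inr _ => ((0 : Fin 1), (0 : Fin 1))
  forb _ _ _ := False

theorem baseF_U {M d V : ℕ} (H : Fin M → Fin d → Fin V) (D m : ℕ)
    (x : Fin M × (Fin d → Fin D) → Prop) :
    (baseF H D m).U x ↔ ∀ α : Fin d → Fin V → Fin D, ∃ z, z ∈ Yp H α ∧ x z := by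
  constructor
  · intro h α
    obtain ⟨z, h1, h2⟩ := h (fun r => match r with
      | Sum.inl κ => fun v => α κ v
      | Sum.inr _ => fun _ => (0 : Fin 1)) (fun r v v' hf => hf)
    refine ⟨z, ?_, h2⟩
    exact mem_Yp.2 fun κ => (h1 (Sum.inl κ)).symm
  · intro h a _
    obtain ⟨z, h1, h2⟩ := h fun κ v => a (Sum.inl κ) v
    refine ⟨z, ?_, h2⟩
    have h3 := mem_Yp.1 h1
    rintro (κ | σ)
    · exact (h3 κ).symm
    · show a (Sum.inr σ) (0 : Fin 1) = (0 : Fin 1)
      exact Subsingleton.elim (α := Fin 1) _ _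

theorem baseF_inj {M d V : ℕ} {H : Fin M → Fin d → Fin V} (hinj : Function.Injective H)
    (D m : ℕ) : Function.Injective (baseF H D m).sc := by
  intro z z' h
  have hκ : ∀ κ, H z.1 κ = H z'.1 κ ∧ z.2 κ = z'.2 κ := by
    intro κ
    have h1 := congrFun h (Sum.inl κ)
    have h2 : (H z.1 κ, z.2 κ) = (H z'.1 κ, z'.2 κ) := h1
    exact Prod.mk.inj h2
  exact Prod.ext (hinj (funext fun κ => (hκ κ).1)) (funext fun κ => (hκ κ).2)

theorem base_num {A W P bad xp X y z ε : ℝ} (hA : 0 < A) (hW : 0 < W) (hε : ε ≤ 1 / 32)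
    (hP : 15 / 16 * W ≤ P) (hbad : bad ≤ 1 / 16 * W) (hxP : xp ≤ P)
    (hy0 : 0 ≤ y) (hyA : y ≤ A) (hxX : xp ≤ X) (hz : z ≤ bad + (P - xp))
    (BL : y * X ≤ A * z + ε * (A * W)) : y ≤ (2 * (1 - xp / P) + 1 / 4) * A := by
  have hP0 : 0 < P := by linarith
  obtain ⟨ρ, hρ⟩ : ∃ ρ : ℝ, ρ = xp / P := ⟨_, rfl⟩
  have hxp : xp = ρ * P := by
    rw [hρ, div_mul_cancel₀ _ hP0.ne']
  have hρ1 : ρ ≤ 1 := by
    rw [hρ, div_le_one hP0]
    exact hxP
  rw [← hρ]
  by_cases h2 : ρ ≤ 1 / 2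
  · have h3 : 1 * A ≤ (2 * (1 - ρ) + 1 / 4) * A :=
      mul_le_mul_of_nonneg_right (by linarith) hA.le
    linarith
  · push Not at h2
    have h3 : y * (ρ * P) ≤ A * ((1 - ρ + 1 / 10) * P) := by
      have e1 : y * xp ≤ y * X := mul_le_mul_of_nonneg_left hxX hy0
      have e2 : A * z ≤ A * (bad + (P - xp)) := mul_le_mul_of_nonneg_left hz hA.le
      have e3 : ε * (A * W) ≤ 1 / 32 * (A * W) := mul_le_mul_of_nonneg_right hε (by positivity)
      have e4 : A * (bad + (P - xp)) + 1 / 32 * (A * W) ≤ A * ((1 - ρ + 1 / 10) * P) := by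
        have e5 : A * (bad + (P - xp)) + 1 / 32 * (A * W) = A * (bad + (P - xp) + W / 32) := by
          ring
        rw [e5]
        refine mul_le_mul_of_nonneg_left ?_ hA.le
        rw [hxp]
        have e6 : (1 - ρ + 1 / 10) * P = P - ρ * P + P / 10 := by ring
        rw [e6]
        linarith
      rw [← hxp]
      linarith
    have h4 : y * ρ ≤ A * (1 - ρ + 1 / 10) := by
      have e1 : (y * ρ) * P ≤ (A * (1 - ρ + 1 / 10)) * P := by linarith
      exact le_of_mul_le_mul_right e1 hP0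
    have h5 : A * (1 - ρ + 1 / 10) ≤ ((2 * (1 - ρ) + 1 / 4) * A) * ρ := by
      have e1 : 0 ≤ (1 - ρ) * (2 * ρ - 1) := mul_nonneg (by linarith) (by linarith)
      have e2 : 1 - ρ + 1 / 10 ≤ (2 * (1 - ρ) + 1 / 4) * ρ := by nlinarith
      calc A * (1 - ρ + 1 / 10) ≤ A * ((2 * (1 - ρ) + 1 / 4) * ρ) :=
            mul_le_mul_of_nonneg_left e2 hA.le
        _ = _ := by ring
    exact le_of_mul_le_mul_right (h4.trans h5) (by linarith)

theorem base_hard {d m V D M c' β a g ρ S : ℕ} (hd : 3 ≤ d)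
    (hβ : 3 ≤ β) (ha : a + 1 = β * (d - 1)) (hc2 : 2 ≤ c') (hV : 1 ≤ V) (hD : 1 ≤ D)
    (hN : a * (2 * c') ≤ β * (d * V))
    (hH : 12 ^ β * 3 ^ a * d ^ (d * β) * M ^ β * (2 * c') ≤ V ^ (β + 1))
    (hρ1 : 1 ≤ ρ) (hρ : 2 * c' < 2 ^ ρ) (hg : 1 ≤ g)
    (hR : (64 * ρ * (2 * (g * ρ))) ^ β ≤ D ^ a)
    (hG : (M * D ^ d + 1) ^ (2 * c') * 4 ^ c' ≤ 2 ^ g)
    (hM : 16 * D ^ (d * V) ≤ 2 ^ M)
    (he : 2 * (((M * D ^ d + S : ℕ) : ℝ) * ((M * D ^ d + S : ℕ) : ℝ) + 1) * (1 / 4) ^ c' ≤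
      1 / 32) :
    ∃ H : Fin M → Fin d → Fin V, Function.Injective H ∧
      HardL (baseF H D m) S false [] := by
  classical
  obtain ⟨H, hexp⟩ := H13.exists_expanding (K := d) (V := V) (M := M) (c := 2 * c') (β := β)
    (a := a) hd (by omega) ha hV hN hH
  have hinj := H13.expanding_injective hd hβ ha (by omega) H hexp
  refine ⟨H, hinj, ?_⟩
  set q : ℕ := 2 * (g * ρ) with hq
  have hq0 : 0 < q := by
    have : 0 < g * ρ := Nat.mul_pos hg hρ1
    omega
  let X := Fin M × (Fin d → Fin D)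
  have hcX : Fintype.card X = M * D ^ d := by
    simp [X]
  set Rr : ℝ := (4 * ρ : ℝ) * q with hRr
  have hρ' : (1 : ℝ) ≤ ρ := by exact_mod_cast hρ1
  have hq' : (1 : ℝ) ≤ q := by exact_mod_cast hq0
  have hR1 : 1 ≤ Rr := by
    rw [hRr]
    nlinarith
  have hexpR : ∀ J : Finset (Fin M), J.card ≤ 2 * c' →
      (16 * Rr) ^ J.card ≤ (D : ℝ) ^ (blk H J).card := by
    intro J hJ
    have h1 := hexp J hJ
    have h2 : ((64 * ρ * q) ^ J.card) ^ β ≤ (D ^ (blk H J).card) ^ β := by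
      calc ((64 * ρ * q) ^ J.card) ^ β = ((64 * ρ * q) ^ β) ^ J.card := by
            rw [← pow_mul, ← pow_mul, mul_comm J.card β]
        _ ≤ (D ^ a) ^ J.card := Nat.pow_le_pow_left hR _
        _ = D ^ (a * J.card) := by rw [← pow_mul]
        _ ≤ D ^ (β * (blk H J).card) := Nat.pow_le_pow_right hD h1
        _ = (D ^ (blk H J).card) ^ β := by rw [← pow_mul, mul_comm β]
    have h3 : (64 * ρ * q) ^ J.card ≤ D ^ (blk H J).card :=
      (Nat.pow_le_pow_iff_left (by omega)).1 h2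
    have h4 : (16 * Rr) ^ J.card = (((64 * ρ * q) ^ J.card : ℕ) : ℝ) := by
      rw [hRr]; push_cast; ring
    rw [h4]
    exact_mod_cast h3
  have hpos16 : ∀ S : Finset X, S.card ≤ 2 * c' →
      cnt (fun α : Fin d → Fin V → Fin D => S ⊆ Yp H α) * (16 * Rr) ^ S.card ≤
        Fintype.card (Fin d → Fin V → Fin D) :=
    fun S hS => H13.pos_spread H (16 * Rr) (by linarith) hexpR S hS
  have hApp : AppData (fun w : Fin g → Fin ρ → X → Fin q => Neg w)
      (fun α : Fin d → Fin V → Fin D => Yp H α) c' Rr ((1 / 2) ^ g) :=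
    { hc := by omega
      hR := hR1
      hδ := by positivity
      hcover := fun J hJ hsize hsp => H13.neg_cover hq0 hρ1 hρ J hJ hsize hsp
      hpos := fun S hS => by
        refine le_trans (mul_le_mul_of_nonneg_left ?_ (H13.cnt_nonneg _)) (hpos16 S hS)
        exact pow_le_pow_left₀ (by linarith) (by linarith) _
      hneg := by
        have h1 := H13.card_small_sets (X := X) (2 * c')
        rw [hcX] at h1
        have h3 : (univ.filter (fun T : Finset X => T.card ≤ 2 * c')).card * 4 ^ c' ≤ 2 ^ g :=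
          (Nat.mul_le_mul_right _ h1).trans hG
        have h4 : ((univ.filter (fun T : Finset X => T.card ≤ 2 * c')).card : ℝ) * 4 ^ c'
            ≤ 2 ^ g := by exact_mod_cast h3
        rw [div_pow, div_pow, one_pow, one_pow, mul_one_div, div_le_div_iff₀ (by positivity)
          (by positivity)]
        linarith }
  have : NeZero q := ⟨hq0.ne'⟩
  have : NeZero D := ⟨by omega⟩
  have : NeZero V := ⟨by omega⟩
  -- the inputs that are unsatisfiable
  let W := Fin g → Fin ρ → X → Fin q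
  let bad : W → Prop := fun w => ∃ α : Fin d → Fin V → Fin D, Yp H α ⊆ Neg w
  have hbad : (nc bad : ℝ) ≤ 1 / 16 * (Fintype.card W : ℝ) := by
    rw [← cnt_eq_nc]
    have e1 : cnt bad ≤ cnt (fun w : W => ∃ α ∈ (univ : Finset (Fin d → Fin V → Fin D)),
        Yp H α ⊆ Neg w) := by
      apply H13.cnt_mono
      rintro w ⟨α, hα⟩
      exact ⟨α, Finset.mem_univ _, hα⟩
    refine e1.trans ((H13.cnt_exists _ _).trans ?_)
    have h2 : ∀ α ∈ (univ : Finset (Fin d → Fin V → Fin D)),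
        cnt (fun w : W => Yp H α ⊆ Neg w) ≤ (1 / 2) ^ M * (Fintype.card W : ℝ) := by
      intro α _
      have := H13.neg_contains (g := g) (ρ := ρ) (q := q) hq hq0 (Yp H α)
      rwa [H13.card_Yp] at this
    refine (Finset.sum_le_sum h2).trans ?_
    rw [Finset.sum_const, nsmul_eq_mul, Finset.card_univ, ← mul_assoc]
    apply mul_le_mul_of_nonneg_right _ (by positivity)
    have h3 : (Fintype.card (Fin d → Fin V → Fin D) : ℝ) = (D : ℝ) ^ (d * V) := by
      simp only [Fintype.card_fun, Fintype.card_fin]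
      push_cast
      rw [← pow_mul, mul_comm V d]
    rw [h3, div_pow, one_pow, mul_one_div, div_le_div_iff₀ (by positivity) (by norm_num)]
    have h4 : ((16 * D ^ (d * V) : ℕ) : ℝ) ≤ ((2 ^ M : ℕ) : ℝ) := by exact_mod_cast hM
    push_cast at h4
    linarith
  have hW0 : (0 : ℝ) < Fintype.card W := by
    have : 0 < Fintype.card W := Fintype.card_pos
    exact_mod_cast this
  have hnn : (nc bad : ℝ) + nc (fun w => ¬ bad w) = Fintype.card W := by
    exact_mod_cast nc_add_nc_not bad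
  let P := {w : W // ¬ bad w}
  have hPc : (Fintype.card P : ℝ) = nc (fun w => ¬ bad w) := by
    rw [Pool.Agent.H25.NM.nc_eq, Fintype.card_subtype]
  have hP34 : 15 / 16 * (Fintype.card W : ℝ) ≤ Fintype.card P := by
    rw [hPc]
    linarith
  have hPne : Nonempty P := by
    have h1 : (0 : ℝ) < Fintype.card P := by linarith
    have h2 : 0 < Fintype.card P := by exact_mod_cast h1
    exact Fintype.card_pos_iff.1 h2
  have hsub : ∀ p : W → Prop, nc (fun w : P => p w.1) = nc (fun w : W => ¬ bad w ∧ p w) := by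
    intro p
    rw [Pool.Agent.H25.NM.nc_eq, Pool.Agent.H25.NM.nc_eq]
    have h1 : (univ.filter fun w : P => p w.1).map (Function.Embedding.subtype _) =
        univ.filter fun w : W => ¬ bad w ∧ p w := by
      ext w
      simp only [Finset.mem_map, Finset.mem_filter, Finset.mem_univ, true_and,
        Function.Embedding.subtype_apply]
      constructor
      · rintro ⟨w', h2, rfl⟩
        exact ⟨w'.2, h2⟩
      · rintro ⟨h2, h3⟩
        exact ⟨⟨w, h2⟩, h3, rfl⟩
    rw [← h1, Finset.card_map]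
  refine ⟨P, (Fin d → Fin V → Fin D), inferInstance, inferInstance, hPne, inferInstance,
    fun w z => z ∉ Neg w.1, fun α z => z ∉ Yp H α, ?_, ?_, ?_⟩
  · rintro ⟨w, hw⟩
    refine (baseF_U H D m _).2 fun α => ?_
    have h1 : ¬ Yp H α ⊆ Neg w := fun h => hw ⟨α, h⟩
    rw [Finset.not_subset] at h1
    exact h1
  · intro α h
    obtain ⟨z, h1, h2⟩ := (baseF_U H D m _).1 h α
    exact h2 h1
  · intro s hs f hf
    have he' : 2 * (((M * D ^ d + s : ℕ) : ℝ) * ((M * D ^ d + s : ℕ) : ℝ) + 1) * (1 / 4) ^ c' ≤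
        1 / 32 := by
      refine le_trans ?_ he
      have h1 : ((M * D ^ d + s : ℕ) : ℝ) ≤ ((M * D ^ d + S : ℕ) : ℝ) :=
        Nat.cast_le.2 (Nat.add_le_add_left hs _)
      have h2 : (0 : ℝ) ≤ ((M * D ^ d + s : ℕ) : ℝ) := Nat.cast_nonneg _
      have h3 : ((M * D ^ d + s : ℕ) : ℝ) * ((M * D ^ d + s : ℕ) : ℝ) ≤
          ((M * D ^ d + S : ℕ) : ℝ) * ((M * D ^ d + S : ℕ) : ℝ) :=
        mul_le_mul h1 h1 h2 (Nat.cast_nonneg _)
      refine mul_le_mul_of_nonneg_right ?_ (by positivity)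
      linarith
    obtain ⟨C, out, hC⟩ : ∃ (C : Pool.Agent.H4.MH.Circuit (baseF H D m).Z s) (out : Fin s),
        ∀ x, f x ↔ C.fn out x := hf
    have hA : ASize (Fintype.card X + s) (fun y : Finset X => ¬ f (fun z => z ∉ y)) := by
      have h5 := asize_dual (X := X) C out
      have h6 : (fun y : Finset X => ¬ f (fun z => z ∉ y)) =
          fun y : Finset X => ¬ C.fn out (fun z => z ∉ y) := funext fun y => by rw [hC]
      rw [h6]
      exact h5
    have BL := block_bound hApp hpos16 (fun S => neg_contains_ge hq hq0 S) hA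
    rw [hcX] at BL
    rw [Pool.Agent.H25.NM.nc_prod_and (fun α => ¬ f (fun z => z ∉ Yp H α))
      (fun w : W => ¬ ¬ f (fun z => z ∉ Neg w))] at BL
    push_cast at BL
    have hA0 : (0 : ℝ) < Fintype.card (Fin d → Fin V → Fin D) := by
      have : 0 < Fintype.card (Fin d → Fin V → Fin D) := Fintype.card_pos
      exact_mod_cast this
    -- accepted
    have e1 : nc (fun p : P => f (fun z => z ∉ Neg p.1)) ≤
        nc (fun w : W => ¬ ¬ f (fun z => z ∉ Neg w)) := by
      rw [hsub fun w => f (fun z => z ∉ Neg w)]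
      refine nc_mono (p := fun w : W => ¬ bad w ∧ f (fun z => z ∉ Neg w)) fun w hw => ?_
      exact not_not.2 hw.2
    -- rejected
    have e2 : nc (fun w : W => ¬ f (fun z => z ∉ Neg w)) ≤
        nc bad + nc (fun p : P => ¬ f (fun z => z ∉ Neg p.1)) := by
      rw [hsub fun w => ¬ f (fun z => z ∉ Neg w)]
      refine le_trans (nc_mono (q := fun w : W => bad w ∨ (¬ bad w ∧ ¬ f (fun z => z ∉ Neg w)))
        fun w hw => ?_) (nc_or_le _ _)
      by_cases h : bad w
      · exact Or.inl h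
      · exact Or.inr ⟨h, hw⟩
    have e5 : nc (fun p : P => f (fun z => z ∉ Neg p.1)) +
        nc (fun p : P => ¬ f (fun z => z ∉ Neg p.1)) = Fintype.card P :=
      nc_add_nc_not (fun p : P => f (fun z => z ∉ Neg p.1))
    have e1' : (nc (fun p : P => f (fun z => z ∉ Neg p.1)) : ℝ) ≤
        nc (fun w : W => ¬ ¬ f (fun z => z ∉ Neg w)) := Nat.cast_le.2 e1
    have e2' : (nc (fun w : W => ¬ f (fun z => z ∉ Neg w)) : ℝ) ≤
        nc bad + (Fintype.card P - nc (fun p : P => f (fun z => z ∉ Neg p.1))) := by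
      have e6 : (nc (fun w : W => ¬ f (fun z => z ∉ Neg w)) : ℝ) ≤
          nc bad + nc (fun p : P => ¬ f (fun z => z ∉ Neg p.1)) := by
        rw [← Nat.cast_add]
        exact Nat.cast_le.2 e2
      have e7 : (nc (fun p : P => f (fun z => z ∉ Neg p.1)) : ℝ) +
          nc (fun p : P => ¬ f (fun z => z ∉ Neg p.1)) = Fintype.card P := by
        rw [← Nat.cast_add, e5]
      linarith
    have e8 : (nc (fun p : P => f (fun z => z ∉ Neg p.1)) : ℝ) ≤ Fintype.card P :=
      Nat.cast_le.2 (nc_le_card _)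
    have e9 : (nc (fun α => ¬ f (fun z => z ∉ Yp H α)) : ℝ) ≤
        Fintype.card (Fin d → Fin V → Fin D) := Nat.cast_le.2 (nc_le_card _)
    have e10 : (0 : ℝ) ≤ (nc (fun α => ¬ f (fun z => z ∉ Yp H α)) : ℝ) := Nat.cast_nonneg _
    push_cast at he'
    exact base_num hA0 hW0 he' hP34 hbad e8 e10 e9 e1' e2' BL

end Pool.Agent.H85.NE
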