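import Pool.Agent.H85.NE.Hard

/-!
The composition of a frame along the blocks of quantifiers.
-/

set_option autoImplicit false

namespace Pool.Agent.H85.NE

open Finset

variable {R : Type}

/-- the factor of the universal blocks -/
def allP : Bool → List ℕ → ℕ
  | _, [] => 1
  | true, _ :: qs => allP false qs
  | false, q :: qs => 12 * (q + 1) * allP true qs

/-- the factor of the existential blocks -/
def exP (c : ℕ → ℕ) : Bool → List ℕ → ℕ
  | true, [] => c 0
  | false, [] => 1
  | true, q :: qs => c q * exP c false qs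
  | false, _ :: qs => exP c true qs

/-- a frame for the prefix `b`, `qs` with the right numbers of variables and values -/
def Sized (F₀ F : Frame R) (c : ℕ → R → ℕ) (b : Bool) (qs : List ℕ) : Prop :=
  (∀ r, Nonempty (F.ι r)) ∧ Function.Injective F.sc ∧
    (∀ r, Fintype.card (F.ι r) = allP b qs * Fintype.card (F₀.ι r)) ∧
    (∀ r, Fintype.card (F.A r) = exP (fun q => c q r) b qs * Fintype.card (F₀.A r))

theorem Sized.modes [Fintype R] [DecidableEq R] {F₀ F : Frame R} {c : ℕ → R → ℕ} {q : ℕ}
    {qs : List ℕ} (h : Sized F₀ F c false qs) : Sized F₀ (F.modes (c q)) c true (q :: qs) := by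
  obtain ⟨h2, h3, h4, h5⟩ := h
  refine ⟨fun r => h2 r, Frame.sc_injective_modes h3 _, fun r => h4 r, fun r => ?_⟩
  have h6 : Fintype.card (Fin (c q r) × F.A r) = c q r * Fintype.card (F.A r) := by
    rw [Fintype.card_prod, Fintype.card_fin]
  refine Eq.trans ?_ (h6.trans ?_)
  · exact Fintype.card_congr (Equiv.refl _)
  · rw [h5 r]
    show _ = c q r * exP (fun q => c q r) false qs * _
    ring

theorem Sized.nil [Fintype R] [DecidableEq R] {F₀ : Frame R} {c : ℕ → R → ℕ}
    (hι : ∀ r, Nonempty (F₀.ι r)) (hinj : Function.Injective F₀.sc) :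
    Sized F₀ (F₀.modes (c 0)) c true [] := by
  refine ⟨fun r => hι r, Frame.sc_injective_modes hinj _, fun r => ?_, fun r => ?_⟩
  · show Fintype.card (F₀.ι r) = 1 * _
    rw [one_mul]
  · have h6 : Fintype.card (Fin (c 0 r) × F₀.A r) = c 0 r * Fintype.card (F₀.A r) := by
      rw [Fintype.card_prod, Fintype.card_fin]
    refine Eq.trans ?_ h6
    exact Fintype.card_congr (Equiv.refl _)

theorem Sized.copies [Fintype R] [DecidableEq R] [Nonempty R] {F₀ F : Frame R}
    {c : ℕ → R → ℕ} {q : ℕ} {qs : List ℕ} (h : Sized F₀ F c true qs) :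
    Sized F₀ (F.copies (12 * (q + 1))) c false (q :: qs) := by
  obtain ⟨h2, h3, h4, h5⟩ := h
  refine ⟨fun r => ?_, Frame.sc_injective_copies h3 _, fun r => ?_, fun r => h5 r⟩
  · obtain ⟨v⟩ := h2 r
    have : 0 < 12 * (q + 1) := by positivity
    exact ⟨((⟨0, this⟩ : Fin _), v)⟩
  · have h6 : Fintype.card (Fin (12 * (q + 1)) × F.ι r) =
        12 * (q + 1) * Fintype.card (F.ι r) := by
      rw [Fintype.card_prod, Fintype.card_fin]
    refine Eq.trans ?_ (h6.trans ?_)
    · exact Fintype.card_congr (Equiv.refl _)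
    · rw [h4 r]
      show _ = 12 * (q + 1) * allP true qs * _
      ring

theorem build₀ [Fintype R] [DecidableEq R] [Nonempty R] (F₀ : Frame R) (s : ℕ)
    (c : ℕ → R → ℕ) (hc : ∀ q, 12 * (q + 1) ≤ ∏ r, c q r)
    (h0 : HardL F₀ s false []) (hι : ∀ r, Nonempty (F₀.ι r)) (hinj : Function.Injective F₀.sc) :
    ∀ (qs : List ℕ) (b : Bool), ∃ F : Frame R, HardL F s b qs ∧ Sized F₀ F c b qs := by
  intro qs
  induction qs with
  | nil =>
    intro b
    cases b with
    | true => exact ⟨F₀.modes (c 0), h0.nil_true hι (c 0) (by have := hc 0; omega),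
        Sized.nil hι hinj⟩
    | false =>
      refine ⟨F₀, h0, hι, hinj, fun r => ?_, fun r => ?_⟩
      · simp [allP]
      · simp [exP]
  | cons q qs ih =>
    intro b
    cases b with
    | true =>
      obtain ⟨F, h1, h2⟩ := ih false
      have h3 := hc q
      exact ⟨F.modes (c q), (h1.modes h2.1 (c q) (by omega) (by omega)).lin, h2.modes⟩
    | false =>
      obtain ⟨F, h1, h2⟩ := ih true
      exact ⟨F.copies (12 * (q + 1)), (h1.copies (by omega) (by omega)).lin, h2.copies⟩

/-- The first block pays for the gap. -/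
theorem build [Fintype R] [DecidableEq R] [Nonempty R] (F₀ : Frame R) (s : ℕ)
    (c : ℕ → R → ℕ) (hc : ∀ q, 12 * (q + 1) ≤ ∏ r, c q r)
    (h0 : HardL F₀ s false []) (hι : ∀ r, Nonempty (F₀.ι r)) (hinj : Function.Injective F₀.sc)
    (q g : ℕ) (qs : List ℕ) (b : Bool) :
    ∃ F : Frame R, HardG F s b (q :: qs) g ∧ Sized F₀ F c b ((q + g) :: qs) := by
  cases b with
  | true =>
    obtain ⟨F, h1, h2⟩ := build₀ F₀ s c hc h0 hι hinj qs false
    have h3 := hc (q + g)
    exact ⟨F.modes (c (q + g)), h1.modes h2.1 _ (by omega) (by omega), h2.modes⟩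
  | false =>
    obtain ⟨F, h1, h2⟩ := build₀ F₀ s c hc h0 hι hinj qs true
    exact ⟨F.copies (12 * (q + g + 1)), h1.copies (by omega) (by omega), h2.copies⟩

end Pool.Agent.H85.NE
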