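import Pool.Agent.H4.MH.Defs
import Pool.Agent.H13.Sat

/-!
Quantified monotone circuits on formulas of bounded width, and products over the blocks of bits of
one kind.
-/

namespace Pool.Agent.H85.NE

open H13 (Clause)
open Pool.Agent.H4.MH (Circuit Quant)

/-- `exProd b [q₁, ..., q_t]` is the product of the numbers `q_i + 1` over the odd `i` if `b` is
true, and over the even `i` if `b` is false. If the blocks `q₁, ..., q_t` of bits are quantified
alternately, and the first quantifier is existential if `b` is true and universal if `b` is false,
then `exProd b` is the product over the existential blocks and `exProd (!b)` the product over the
universal blocks. -/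
def exProd : Bool → List ℕ → ℕ
  | _, [] => 1
  | true, q :: qs => (q + 1) * exProd false qs
  | false, _ :: qs => exProd true qs

/-- The formula `F` is accepted: after alternating quantifiers over the blocks `qs` of bits, the
first one existential if `b` is true and universal if `b` is false, the gate `out y` of the circuit
`C y` of the string `y` of all the bits accepts the set of clauses of `F`. -/
def Accepts {n k s : ℕ} (b : Bool) (qs : List ℕ) (C : List Bool → Circuit (Clause n k) s)
    (out : List Bool → Fin s) (F : Finset (Clause n k)) : Prop :=
  Quant b qs fun y => (C y).fn (out y) (fun c => c ∈ F)

end Pool.Agent.H85.NE
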