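import Pool.Agent.H85.NE.Hard
import Pool.Agent.H85.NE.Defs
import Pool.Agent.H14.NS.Enc

/-!
The unsatisfiability of a frame is a projection of the unsatisfiability of formulas of width `k`.
-/

set_option autoImplicit false

namespace Pool.Agent.H85.NE

open Finset
open H13 (Clause Satisfiable)
open Pool.Agent.H4.MH (Circuit Alt IsSub Quant alt_of_quant)
open Pool.Agent.H25.NM (nc)

variable {R : Type}

/-- the scope of a constraint -/
noncomputable def scope [Fintype R] (F : Frame R) (z : F.Z) :
    Finset (Σ i : (Σ r, F.ι r), Fin (Fintype.card (F.A i.1))) := by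
  classical
  exact univ.image fun r => ⟨⟨r, (F.sc z r).1⟩, Fintype.equivFin (F.A r) (F.sc z r).2⟩

theorem mem_scope [Fintype R] (F : Frame R) (z : F.Z)
    (p : Σ i : (Σ r, F.ι r), Fin (Fintype.card (F.A i.1))) :
    p ∈ scope F z ↔ ∃ r, (⟨⟨r, (F.sc z r).1⟩, Fintype.equivFin (F.A r) (F.sc z r).2⟩ :
      Σ i : (Σ r, F.ι r), Fin (Fintype.card (F.A i.1))) = p := by
  classical
  unfold scope
  rw [Finset.mem_image]
  simp

theorem scope_inj [Fintype R] (F : Frame R) (hinj : Function.Injective F.sc) :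
    Function.Injective (scope F) := by
  intro z z' h
  apply hinj
  funext r
  have h1 : (⟨⟨r, (F.sc z r).1⟩, Fintype.equivFin (F.A r) (F.sc z r).2⟩ :
      Σ i : (Σ r, F.ι r), Fin (Fintype.card (F.A i.1))) ∈ scope F z := (mem_scope F z _).2 ⟨r, rfl⟩
  rw [h, mem_scope] at h1
  obtain ⟨r', h2⟩ := h1
  rw [Sigma.mk.injEq] at h2
  obtain ⟨h3, h4⟩ := h2
  have h5 : r' = r := congrArg Sigma.fst h3
  subst h5
  rw [Sigma.mk.injEq] at h3
  have h6 : (F.sc z' r').1 = (F.sc z r').1 := eq_of_heq h3.2
  have h7 : Fintype.equivFin (F.A r') (F.sc z' r').2 = Fintype.equivFin (F.A r') (F.sc z r').2 := by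
    exact eq_of_heq h4
  have h8 := (Fintype.equivFin (F.A r')).injective h7
  exact Prod.ext h6.symm h8.symm

theorem scope_card [Fintype R] (F : Frame R) (z : F.Z) :
    (scope F z).card ≤ Fintype.card R := by
  classical
  unfold scope
  exact Finset.card_image_le.trans (le_of_eq Finset.card_univ)

/-- a forbidden pair -/
def Fpair (F : Frame R) (T : Finset (Σ i : (Σ r, F.ι r), Fin (Fintype.card (F.A i.1)))) : Prop :=
  ∃ (r : R) (v v' : F.ι r) (α α' : F.A r), F.forb r (v, α) (v', α') ∧
    ∀ p, p ∈ T ↔ p = ⟨⟨r, v⟩, Fintype.equivFin (F.A r) α⟩ ∨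
      p = ⟨⟨r, v'⟩, Fintype.equivFin (F.A r) α'⟩

theorem ncard_nc {P : Type} [Fintype P] {N : ℕ} (e : P ≃ Fin N) (p : P → Prop) :
    {i | p (e.symm i)}.ncard = nc p := by
  classical
  rw [Pool.Agent.H25.NM.nc_eq, Set.ncard_eq_toFinset_card']
  refine Finset.card_equiv e.symm fun i => ?_
  simp

/-- There are unsatisfiable formulas `φ i` and satisfiable formulas `ψ j` such that all quantified
monotone circuits with this prefix and at most `S` gates are wrong on many of them. -/
def HardSat (n k S : ℕ) (b : Bool) (qs : List ℕ) (g : ℕ) : Prop :=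
  ∃ (N M : ℕ) (φ : Fin N → Finset (Clause n k)) (ψ : Fin M → Finset (Clause n k)),
    0 < N ∧ 0 < M ∧ (∀ i, ¬ Satisfiable (φ i)) ∧ (∀ j, Satisfiable (ψ j)) ∧
    ∀ s ≤ S, ∀ (C : List Bool → Circuit (Clause n k) s) (out : List Bool → Fin s),
      (b = true → M < 2 * {j | ¬ Accepts b qs C out (ψ j)}.ncard →
        2 ^ g * {i | Accepts b qs C out (φ i)}.ncard < N) ∧
      (b = false → N < 2 * {i | Accepts b qs C out (φ i)}.ncard →
        2 ^ g * {j | ¬ Accepts b qs C out (ψ j)}.ncard < M)

theorem enc_main [Fintype R] [DecidableEq R] (F : Frame R) {n k S g : ℕ} {b : Bool}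
    {qs : List ℕ} (hF : HardG F S b qs g) (hinj : Function.Injective F.sc)
    (hk : 3 ≤ k) (hR : Fintype.card R ≤ k)
    (hn : ∑ r, Fintype.card (F.ι r) * (2 * Fintype.card (F.A r) + 1) ≤ n) :
    HardSat n k S b qs g := by
  classical
  let I := Σ r, F.ι r
  let dom : I → ℕ := fun i => Fintype.card (F.A i.1)
  let Z := {T : Finset (Σ i : I, Fin (dom i)) // T.card ≤ k}
  have hsum : ∑ i : I, (2 * dom i + 1) ≤ n := by
    refine le_trans (le_of_eq ?_) hn
    rw [Fintype.sum_sigma]
    refine Finset.sum_congr rfl fun r _ => ?_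
    show ∑ _x : F.ι r, (2 * Fintype.card (F.A r) + 1) = _
    rw [Finset.sum_const, smul_eq_mul, Finset.card_univ]
  obtain ⟨G, hG, hsat⟩ := H14.NS.encode_gen (I := I) dom (n := n) (k := k) hk hsum
    (Z := Z) (fun T => T.1) Subtype.val_injective (fun T => T.2)
  -- the allowed sets
  let yy : (F.Z → Prop) → Finset Z := fun x =>
    univ.filter fun T : Z => ¬ ((∃ z, scope F z = T.1 ∧ x z) ∨ Fpair F T.1)
  have hyy : ∀ (x : F.Z → Prop) (T : Z), T ∈ yy x ↔
      ¬ ((∃ z, scope F z = T.1 ∧ x z) ∨ Fpair F T.1) := by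
    intro x T
    simp [yy]
  have hsc : ∀ z, (scope F z).card ≤ k := fun z => (scope_card F z).trans hR
  -- satisfiability
  have key : ∀ x : F.Z → Prop, ¬ Satisfiable (G (yy x)) ↔ F.U x := by
    intro x
    rw [hsat]
    constructor
    · intro h a ha
      by_contra hcon
      push Not at hcon
      refine h ⟨fun i => Fintype.equivFin (F.A i.1) (a i.1 i.2), fun T hT => ?_⟩
      rw [hyy]
      rintro (⟨z, hz, hx⟩ | ⟨r, v, v', α, α', hf, hp⟩)
      · refine hcon z (fun r => ?_) hx
        have h1 := hT ⟨⟨r, (F.sc z r).1⟩, Fintype.equivFin (F.A r) (F.sc z r).2⟩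
          (by rw [← hz]; exact (mem_scope F z _).2 ⟨r, rfl⟩)
        exact (Fintype.equivFin (F.A r)).injective h1
      · have h1 := hT ⟨⟨r, v⟩, Fintype.equivFin (F.A r) α⟩ ((hp _).2 (Or.inl rfl))
        have h2 := hT ⟨⟨r, v'⟩, Fintype.equivFin (F.A r) α'⟩ ((hp _).2 (Or.inr rfl))
        have h3 : a r v = α := (Fintype.equivFin (F.A r)).injective h1
        have h4 : a r v' = α' := (Fintype.equivFin (F.A r)).injective h2
        refine ha r v v' ?_
        rw [h3, h4]
        exact hf
    · rintro h ⟨a, ha⟩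
      let a' : ∀ r, F.ι r → F.A r := fun r v => (Fintype.equivFin (F.A r)).symm (a ⟨r, v⟩)
      have ha' : ∀ r v, a ⟨r, v⟩ = Fintype.equivFin (F.A r) (a' r v) := fun r v =>
        ((Fintype.equivFin (F.A r)).apply_symm_apply _).symm
      have hok : F.Ok a' := by
        intro r v v' hf
        let T : Finset (Σ i : I, Fin (dom i)) :=
          {⟨⟨r, v⟩, Fintype.equivFin (F.A r) (a' r v)⟩,
            ⟨⟨r, v'⟩, Fintype.equivFin (F.A r) (a' r v')⟩}
        have hT : T.card ≤ k := (Finset.card_le_two).trans (by omega)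
        have h1 : (⟨T, hT⟩ : Z) ∈ yy x := by
          apply ha
          intro p hp
          rcases Finset.mem_insert.1 hp with rfl | hp
          · exact ha' r v
          · rw [Finset.mem_singleton] at hp
            subst hp
            exact ha' r v'
        rw [hyy] at h1
        refine h1 (Or.inr ⟨r, v, v', a' r v, a' r v', hf, fun p => ?_⟩)
        show p ∈ T ↔ _
        rw [Finset.mem_insert, Finset.mem_singleton]
      obtain ⟨z, h1, h2⟩ := h a' hok
      have h3 : (⟨scope F z, hsc z⟩ : Z) ∈ yy x := by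
        apply ha
        intro p hp
        obtain ⟨r, rfl⟩ := (mem_scope F z p).1 hp
        show a ⟨r, (F.sc z r).1⟩ = Fintype.equivFin (F.A r) (F.sc z r).2
        rw [ha', h1 r]
      rw [hyy] at h3
      exact h3 (Or.inl ⟨z, rfl, h2⟩)
  -- the substitution
  have hsub : IsSub (W := Clause n k) (V := F.Z) fun c x => c ∈ G (yy x) := by
    intro c
    rcases hG c with h | h | ⟨T, h⟩
    · right; left
      intro x
      exact not_not.1 (h (yy x))
    · right; right
      intro x
      exact h (yy x)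
    · have h' : ∀ x : F.Z → Prop, c ∈ G (yy x) ↔ ((∃ z, scope F z = T.1 ∧ x z) ∨ Fpair F T.1) := by
        intro x
        have h1 := h (yy x)
        rw [hyy] at h1
        exact not_iff_not.1 h1
      by_cases hp : Fpair F T.1
      · right; left
        exact fun x => (h' x).2 (Or.inr hp)
      by_cases hz : ∃ z, scope F z = T.1
      · obtain ⟨z, hz⟩ := hz
        left
        refine ⟨z, fun x => (h' x).trans ⟨?_, fun hx => Or.inl ⟨z, hz, hx⟩⟩⟩
        rintro (⟨z', hz', hx⟩ | hp')
        · have : z' = z := scope_inj F hinj (hz'.trans hz.symm)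
          rwa [this] at hx
        · exact absurd hp' hp
      · right; right
        intro x hx
        rcases (h' x).1 hx with ⟨z', hz', _⟩ | hp'
        · exact hz ⟨z', hz'⟩
        · exact hp hp'
  have hcomp : ∀ s, ∀ (C : List Bool → Circuit (Clause n k) s) (out : List Bool → Fin s),
      Alt s b qs fun x : F.Z → Prop => Accepts b qs C out (G (yy x)) := fun s C out =>
    Alt.subst hsub (alt_of_quant qs b C out)
  obtain ⟨P, Ω, _, _, _, _, pos, neg, hpos, hneg, hh⟩ := hF
  let e₁ : P ≃ Fin (Fintype.card P) := Fintype.equivFin P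
  let e₂ : Ω ≃ Fin (Fintype.card Ω) := Fintype.equivFin Ω
  refine ⟨Fintype.card P, Fintype.card Ω, fun i => G (yy (pos (e₁.symm i))),
    fun j => G (yy (neg (e₂.symm j))), Fintype.card_pos, Fintype.card_pos,
    fun i => (key _).2 (hpos _), fun j => not_not.1 fun h => hneg _ ((key _).1 h),
    fun s hs C out => ?_⟩
  have hgap := hh s hs _ (hcomp s C out)
  have n1 : {i | Accepts b qs C out (G (yy (pos (e₁.symm i))))}.ncard =
      nc fun p => Accepts b qs C out (G (yy (pos p))) :=
    ncard_nc e₁ fun p => Accepts b qs C out (G (yy (pos p)))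
  have n2 : {j | ¬ Accepts b qs C out (G (yy (neg (e₂.symm j))))}.ncard =
      nc fun ω => ¬ Accepts b qs C out (G (yy (neg ω))) :=
    ncard_nc e₂ fun ω => ¬ Accepts b qs C out (G (yy (neg ω)))
  constructor
  · rintro rfl h
    by_contra hcon
    push Not at hcon
    rw [n1] at hcon
    rw [n2] at h
    have h1 : 2 * nc (fun ω => ¬ Accepts true qs C out (G (yy (neg ω)))) ≤ Fintype.card Ω :=
      hgap hcon
    omega
  · rintro rfl h
    by_contra hcon
    push Not at hcon
    rw [n2] at hcon
    rw [n1] at h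
    have h1 : 2 * nc (fun p => Accepts false qs C out (G (yy (pos p)))) ≤ Fintype.card P :=
      hgap hcon
    omega

end Pool.Agent.H85.NE
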