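import Pool.Agent.H85.NE.Build
import Pool.Agent.H85.NE.Defs

/-!
Products over the blocks of one kind.
-/

set_option autoImplicit false

namespace Pool.Agent.H85.NE

theorem exProd_pos : ∀ (qs : List ℕ) (b : Bool), 1 ≤ exProd b qs := by
  intro qs
  induction qs with
  | nil =>
    intro b
    cases b <;> exact le_refl 1
  | cons q qs ih =>
    intro b
    cases b with
    | true => exact Nat.mul_pos (Nat.succ_pos q) (ih false)
    | false => exact ih true

theorem allP_le : ∀ (qs : List ℕ) (b : Bool), allP b qs ≤ 12 ^ qs.length * exProd (!b) qs := by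
  intro qs
  induction qs with
  | nil =>
    intro b
    cases b <;> simp [allP, exProd]
  | cons q qs ih =>
    intro b
    cases b with
    | true =>
      show allP false qs ≤ 12 ^ (qs.length + 1) * exProd true qs
      refine (ih false).trans ?_
      exact Nat.mul_le_mul_right _ (Nat.pow_le_pow_right (by norm_num) (Nat.le_succ _))
    | false =>
      show 12 * (q + 1) * allP true qs ≤ 12 ^ (qs.length + 1) * ((q + 1) * exProd false qs)
      calc 12 * (q + 1) * allP true qs
          ≤ 12 * (q + 1) * (12 ^ qs.length * exProd false qs) := Nat.mul_le_mul_left _ (ih true)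
        _ = _ := by rw [pow_succ]; ring

theorem allP_pos : ∀ (qs : List ℕ) (b : Bool), 1 ≤ allP b qs := by
  intro qs
  induction qs with
  | nil =>
    intro b
    cases b <;> exact le_refl 1
  | cons q qs ih =>
    intro b
    cases b with
    | true => exact ih false
    | false =>
      show 0 < 12 * (q + 1) * allP true qs
      have := ih true
      positivity

theorem ceil_two {x : ℝ} (hx : 1 ≤ x) : (⌈x⌉₊ : ℝ) ≤ 2 * x := by
  have := Nat.ceil_lt_add_one (show 0 ≤ x by linarith)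
  linarith

theorem exP_le {w : ℝ} (hw : 0 ≤ w) : ∀ (qs : List ℕ) (b : Bool),
    (exP (fun q => ⌈((12 * (q + 1) : ℕ) : ℝ) ^ w⌉₊) b qs : ℝ) ≤
      2 ^ (qs.length + 1) * ((12 ^ (qs.length + 1) * exProd b qs : ℕ) : ℝ) ^ w := by
  have key : ∀ q : ℕ, (1 : ℝ) ≤ ((12 * (q + 1) : ℕ) : ℝ) ^ w := by
    intro q
    refine Real.one_le_rpow ?_ hw
    have : 1 ≤ 12 * (q + 1) := by omega
    exact_mod_cast this
  intro qs
  induction qs with
  | nil =>
    intro b
    cases b with
    | true =>
      show (⌈((12 * (0 + 1) : ℕ) : ℝ) ^ w⌉₊ : ℝ) ≤ 2 ^ (0 + 1) * ((12 ^ (0 + 1) * 1 : ℕ) : ℝ) ^ w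
      refine (ceil_two (key 0)).trans (le_of_eq ?_)
      norm_num
    | false =>
      show ((1 : ℕ) : ℝ) ≤ 2 ^ (0 + 1) * ((12 ^ (0 + 1) * 1 : ℕ) : ℝ) ^ w
      have h1 := key 0
      have h2 : ((12 ^ (0 + 1) * 1 : ℕ) : ℝ) = ((12 * (0 + 1) : ℕ) : ℝ) := by norm_num
      rw [h2]
      push_cast at h1 ⊢
      linarith
  | cons q qs ih =>
    intro b
    cases b with
    | true =>
      show ((⌈((12 * (q + 1) : ℕ) : ℝ) ^ w⌉₊ *
        exP (fun q => ⌈((12 * (q + 1) : ℕ) : ℝ) ^ w⌉₊) false qs : ℕ) : ℝ) ≤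
        2 ^ (qs.length + 1 + 1) *
          ((12 ^ (qs.length + 1 + 1) * ((q + 1) * exProd false qs) : ℕ) : ℝ) ^ w
      rw [Nat.cast_mul]
      refine (mul_le_mul (ceil_two (key q)) (ih false) (by positivity)
        (by positivity)).trans (le_of_eq ?_)
      have h4 : 12 ^ (qs.length + 1 + 1) * ((q + 1) * exProd false qs) =
          (12 * (q + 1)) * (12 ^ (qs.length + 1) * exProd false qs) := by
        rw [pow_succ 12 (qs.length + 1)]
        ring
      rw [h4, Nat.cast_mul (12 * (q + 1)) (12 ^ (qs.length + 1) * exProd false qs),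
        Real.mul_rpow (Nat.cast_nonneg _) (Nat.cast_nonneg _), pow_succ 2 (qs.length + 1)]
      ring
    | false =>
      show (exP (fun q => ⌈((12 * (q + 1) : ℕ) : ℝ) ^ w⌉₊) true qs : ℝ) ≤
        2 ^ (qs.length + 1 + 1) * ((12 ^ (qs.length + 1 + 1) * exProd true qs : ℕ) : ℝ) ^ w
      refine (ih true).trans ?_
      refine mul_le_mul (pow_le_pow_right₀ (by norm_num) (Nat.le_succ _)) ?_ (by positivity)
        (by positivity)
      refine Real.rpow_le_rpow (by positivity) ?_ hw
      have : 12 ^ (qs.length + 1) * exProd true qs ≤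
          12 ^ (qs.length + 1 + 1) * exProd true qs :=
        Nat.mul_le_mul_right _ (Nat.pow_le_pow_right (by norm_num) (Nat.le_succ _))
      exact_mod_cast this

/-- the numbers of indices -/
theorem prod_ceil (d m : ℕ) {w₁ w₂ x : ℝ} (hw : d * w₁ + m * w₂ = 1) (hx : 0 < x) (y : ℕ)
    (hy : (y : ℝ) = x) :
    y ≤ ∏ r : Fin d ⊕ Fin m, ⌈x ^ (Sum.elim (fun _ => w₁) (fun _ => w₂) r : ℝ)⌉₊ := by
  have h1 : (y : ℝ) ≤ ((∏ r : Fin d ⊕ Fin m,
      ⌈x ^ (Sum.elim (fun _ => w₁) (fun _ => w₂) r : ℝ)⌉₊ : ℕ) : ℝ) := by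
    rw [Nat.cast_prod]
    have h2 : x = ∏ r : Fin d ⊕ Fin m, x ^ (Sum.elim (fun _ => w₁) (fun _ => w₂) r : ℝ) := by
      rw [Fintype.prod_sum_type]
      simp only [Sum.elim_inl, Sum.elim_inr, Finset.prod_const, Finset.card_univ,
        Fintype.card_fin]
      rw [← Real.rpow_natCast, ← Real.rpow_natCast, ← Real.rpow_mul hx.le, ← Real.rpow_mul hx.le,
        ← Real.rpow_add hx]
      have : w₁ * d + w₂ * m = 1 := by linarith
      rw [this, Real.rpow_one]
    rw [hy]
    nth_rewrite 1 [h2]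
    refine Finset.prod_le_prod (fun r _ => by positivity) fun r _ => Nat.le_ceil _
  exact_mod_cast h1

end Pool.Agent.H85.NE
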