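import Pool.Agent.H85.NE.Base
import Pool.Agent.H85.NE.Prod
import Pool.Agent.H85.NE.Enc

/-!
The lower bound with explicit parameters.
-/

set_option autoImplicit false

namespace Pool.Agent.H85.NE


theorem comb {d m n n' q g S V D M p P : ℕ} (hd : 3 ≤ d) {w₁ w₂ : ℝ}
    (hw : (d : ℝ) * w₁ + m * w₂ = 1) (b : Bool) (qs : List ℕ)
    (hn : allP b ((q + g) :: qs) * n' ≤ n)
    (hvars : d * V * (2 * (p * D) + 1) + m * (2 * P + 1) ≤ n') (hV : 1 ≤ V)
    {H : Fin M → Fin d → Fin V} (hinj : Function.Injective H)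
    (hhard : HardL (baseF H D m) S false [])
    (hXp : exP (fun q => ⌈((12 * (q + 1) : ℕ) : ℝ) ^ w₁⌉₊) b ((q + g) :: qs) ≤ p)
    (hXP : exP (fun q => ⌈((12 * (q + 1) : ℕ) : ℝ) ^ w₂⌉₊) b ((q + g) :: qs) ≤ P) :
    HardSat n (d + m) S b (q :: qs) g := by
  let w : Fin d ⊕ Fin m → ℝ := fun r => Sum.elim (fun _ => w₁) (fun _ => w₂) r
  let c : ℕ → Fin d ⊕ Fin m → ℕ := fun q r => ⌈((12 * (q + 1) : ℕ) : ℝ) ^ (w r)⌉₊
  have hc : ∀ q, 12 * (q + 1) ≤ ∏ r, c q r := fun q =>
    prod_ceil d m hw (by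
      have : 0 < 12 * (q + 1) := by omega
      exact_mod_cast this) _ rfl
  have : Nonempty (Fin d ⊕ Fin m) := ⟨Sum.inl ⟨0, by omega⟩⟩
  have hιne : ∀ r, Nonempty ((baseF H D m).ι r) := by
    rintro (r | r)
    · exact ⟨(⟨0, hV⟩ : Fin V)⟩
    · exact ⟨(0 : Fin 1)⟩
  obtain ⟨F, hF, _, hFinj, hFι, hFA⟩ := build (baseF H D m) S c hc hhard hιne
    (baseF_inj hinj D m) q g qs b
  set U : ℕ := allP b ((q + g) :: qs) with hU
  have hsum : ∑ r, Fintype.card (F.ι r) * (2 * Fintype.card (F.A r) + 1) ≤ n := by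
    have e1 : ∀ r : Fin d, Fintype.card (F.ι (Sum.inl r)) *
        (2 * Fintype.card (F.A (Sum.inl r)) + 1) ≤ U * (V * (2 * (p * D) + 1)) := by
      intro r
      rw [hFι, hFA]
      have h1 : Fintype.card ((baseF H D m).ι (Sum.inl r)) = V := Fintype.card_fin V
      have h2 : Fintype.card ((baseF H D m).A (Sum.inl r)) = D := Fintype.card_fin D
      have h3 : exP (fun q => c q (Sum.inl r)) b ((q + g) :: qs) ≤ p := hXp
      rw [h1, h2]
      calc U * V * (2 * (exP (fun q => c q (Sum.inl r)) b ((q + g) :: qs) * D) + 1)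
          ≤ U * V * (2 * (p * D) + 1) := by
            refine Nat.mul_le_mul_left _ ?_
            have := Nat.mul_le_mul_right D h3
            omega
        _ = _ := by ring
    have e2 : ∀ r : Fin m, Fintype.card (F.ι (Sum.inr r)) *
        (2 * Fintype.card (F.A (Sum.inr r)) + 1) ≤ U * (2 * P + 1) := by
      intro r
      rw [hFι, hFA]
      have h1 : Fintype.card ((baseF H D m).ι (Sum.inr r)) = 1 := Fintype.card_fin 1
      have h2 : Fintype.card ((baseF H D m).A (Sum.inr r)) = 1 := Fintype.card_fin 1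
      have h3 : exP (fun q => c q (Sum.inr r)) b ((q + g) :: qs) ≤ P := hXP
      rw [h1, h2]
      calc U * 1 * (2 * (exP (fun q => c q (Sum.inr r)) b ((q + g) :: qs) * 1) + 1)
          ≤ U * 1 * (2 * P + 1) := by
            refine Nat.mul_le_mul_left _ ?_
            omega
        _ = _ := by ring
    rw [Fintype.sum_sum_type]
    calc ∑ r : Fin d, Fintype.card (F.ι (Sum.inl r)) *
          (2 * Fintype.card (F.A (Sum.inl r)) + 1) +
        ∑ r : Fin m, Fintype.card (F.ι (Sum.inr r)) *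
          (2 * Fintype.card (F.A (Sum.inr r)) + 1)
        ≤ ∑ _r : Fin d, U * (V * (2 * (p * D) + 1)) + ∑ _r : Fin m, U * (2 * P + 1) :=
          add_le_add (Finset.sum_le_sum fun r _ => e1 r) (Finset.sum_le_sum fun r _ => e2 r)
      _ = U * (d * V * (2 * (p * D) + 1) + m * (2 * P + 1)) := by
          rw [Finset.sum_const, Finset.sum_const, Finset.card_univ, Finset.card_univ,
            Fintype.card_fin, Fintype.card_fin, smul_eq_mul, smul_eq_mul]
          ring
      _ ≤ U * n' := Nat.mul_le_mul_left _ hvars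
      _ ≤ n := hn
  refine enc_main F hF hFinj (by omega) ?_ hsum
  rw [Fintype.card_sum, Fintype.card_fin, Fintype.card_fin]

end Pool.Agent.H85.NE
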