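import Pool.Agent.H85.NE.Main

/-!
The choice of the parameters.
-/

set_option autoImplicit false

namespace Pool.Agent.H85.NE

open Filter

theorem lower (k d : ℕ) (hd : 3 ≤ d) (hdk : d ≤ k) (K : ℝ)
    (hK : (d : ℝ) ^ 2 / ((d : ℝ) - 1) < K) :
    ∃ δ > (0 : ℝ), ∃ l₀ : ℕ, ∀ l ≥ l₀, ∀ (n q g : ℕ) (b : Bool) (qs : List ℕ),
      (qs.length : ℝ) ≤ δ * Real.log l →
      (l : ℝ) ^ K ≤ ((n : ℝ) / exProd (!b) ((q + g) :: qs)) ^ d →
      (exProd b ((q + g) :: qs) : ℝ) * (l : ℝ) ^ K ≤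
        ((n : ℝ) / exProd (!b) ((q + g) :: qs)) ^ k →
      HardSat n k (2 ^ l) b (q :: qs) g := by
  obtain ⟨m, rfl⟩ := Nat.exists_eq_add_of_le hdk
  have hd3 : (3 : ℝ) ≤ d := by exact_mod_cast hd
  have hd0 : (0 : ℝ) < d := by linarith
  have hd1 : (0 : ℝ) < (d : ℝ) - 1 := by linarith
  have hm0 : (0 : ℝ) ≤ m := Nat.cast_nonneg m
  have hk0 : (0 : ℝ) < ((d + m : ℕ) : ℝ) := by
    push_cast
    linarith
  have hgap : (d : ℝ) / ((d : ℝ) - 1) < K / d := by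
    rw [lt_div_iff₀ hd0]
    refine lt_of_le_of_lt (le_of_eq ?_) hK
    ring
  obtain ⟨K₁, hK₁, hK₁'⟩ := exists_between hgap
  have hK₁0 : 0 < K₁ := lt_trans (by positivity) hK₁
  have hdK : d * K₁ < K := by
    rw [lt_div_iff₀ hd0] at hK₁'
    linarith
  have hK0 : 0 < K := lt_trans (by positivity) hdK
  set η₀ : ℝ := (K - d * K₁) / (2 * (2 * ((d + m : ℕ) : ℝ) + 1)) with hη₀
  have hη₀0 : 0 < η₀ := by
    have : 0 < K - d * K₁ := by linarith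
    positivity
  set η : ℝ := min 1 η₀ with hη
  have hη0 : 0 < η := lt_min one_pos hη₀0
  have hη1 : η ≤ 1 := min_le_left _ _
  have hηk : η * (2 * ((d + m : ℕ) : ℝ) + 1) < K - d * K₁ := by
    have h1 : η ≤ η₀ := min_le_right _ _
    have h2 : η₀ * (2 * (2 * ((d + m : ℕ) : ℝ) + 1)) = K - d * K₁ := by
      rw [hη₀, div_mul_cancel₀ _ (by positivity)]
    have h3 : η * (2 * ((d + m : ℕ) : ℝ) + 1) ≤ η₀ * (2 * ((d + m : ℕ) : ℝ) + 1) :=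
      mul_le_mul_of_nonneg_right h1 (by positivity)
    have h4 : 0 < η₀ * (2 * ((d + m : ℕ) : ℝ) + 1) := by positivity
    linarith
  have hηd : 2 * η + K₁ < K / d := by
    rw [lt_div_iff₀ hd0]
    have h1 : η * (2 * (d : ℝ)) ≤ η * (2 * ((d + m : ℕ) : ℝ) + 1) := by
      refine mul_le_mul_of_nonneg_left ?_ hη0.le
      push_cast
      linarith
    linarith
  have R0 := ev_blocks η hη0
  have R1 := base_small d hd K₁ hK₁
  have R2 : ∀ᶠ x : ℝ in atTop, 8 * x ^ (2 * η + K₁) ≤ x ^ (K / d) := ev_rpow _ _ _ hηd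
  have R3 : ∀ᶠ x : ℝ in atTop, 32 * ((d + m : ℕ) : ℝ) * x ^ (2 * η) ≤ x ^ (K / d) :=
    ev_rpow _ _ _ (by linarith)
  have R4 : ∀ᶠ x : ℝ in atTop, (32 * ((d + m : ℕ) : ℝ) + 8) * x ^ η ≤ x ^ (K / d) :=
    ev_rpow _ _ _ (by linarith)
  have R5 : ∀ᶠ x : ℝ in atTop, (8 : ℝ) ^ d * (32 * ((d + m : ℕ) : ℝ)) ^ m *
      x ^ (η * (2 * ((d + m : ℕ) : ℝ) + 1) + d * K₁) ≤ x ^ K := ev_rpow _ _ _ (by linarith)
  obtain ⟨l₀, hl₀⟩ := eventually_atTop.1 (tendsto_natCast_atTop_atTop.eventually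
    (((R0.and R1).and (R2.and R3)).and ((R4.and R5).and (eventually_ge_atTop 1))))
  refine ⟨η / 8, by positivity, l₀, fun l hl n q g b qs hlen hu he => ?_⟩
  obtain ⟨⟨⟨r0, r1⟩, r2, r3⟩, ⟨r4, r5⟩, hl1⟩ := hl₀ l hl
  have hl0 : (0 : ℝ) < l := by linarith
  set Y : ℝ := (n : ℝ) / exProd (!b) ((q + g) :: qs) with hY
  have hY0 : 0 ≤ Y := by
    rw [hY]
    positivity
  have hYl : (l : ℝ) ^ (K / d) ≤ Y := by
    have h1 : ((l : ℝ) ^ (K / d)) ^ d ≤ Y ^ d := by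
      rw [← Real.rpow_natCast, ← Real.rpow_mul hl0.le, div_mul_cancel₀ _ hd0.ne']
      exact hu
    exact le_of_pow_le_pow_left₀ (by omega) hY0 h1
  have hW : (1 : ℝ) ≤ (l : ℝ) ^ η := Real.one_le_rpow hl1 hη0.le
  have hL : (1 : ℝ) ≤ (l : ℝ) ^ K₁ := Real.one_le_rpow hl1 hK₁0.le
  have hW2 : ((l : ℝ) ^ η) ^ 2 = (l : ℝ) ^ (2 * η) := by
    rw [← Real.rpow_natCast, ← Real.rpow_mul hl0.le]
    congr 1
    push_cast
    ring
  have hs' : ((2 ^ l : ℕ) : ℝ) ≤ 2 ^ (l : ℝ) := by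
    rw [Real.rpow_natCast]
    push_cast
    exact le_rfl
  refine fin_main hd hW hL b qs _ rfl (r0 qs.length hlen) hY ?_ ?_ ?_ ?_ (r1 m _ hs')
  · refine le_trans (le_of_eq ?_) (r2.trans hYl)
    rw [hW2, Real.rpow_add hl0]
    ring
  · rw [hW2]
    exact r3.trans hYl
  · exact r4.trans hYl
  · refine le_trans (mul_le_mul_of_nonneg_left ?_ (by positivity)) he
    refine le_trans (le_of_eq ?_) r5
    have h1 : (l : ℝ) ^ (η * (2 * ((d + m : ℕ) : ℝ) + 1) + d * K₁) =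
        (l : ℝ) ^ η * (((l : ℝ) ^ (2 * η)) ^ d * ((l : ℝ) ^ (2 * η)) ^ m * ((l : ℝ) ^ K₁) ^ d) := by
      rw [← Real.rpow_natCast, ← Real.rpow_natCast, ← Real.rpow_natCast, ← Real.rpow_mul hl0.le,
        ← Real.rpow_mul hl0.le, ← Real.rpow_mul hl0.le, ← Real.rpow_add hl0, ← Real.rpow_add hl0,
        ← Real.rpow_add hl0]
      congr 1
      push_cast
      ring
    rw [h1, hW2, mul_pow, mul_pow, mul_pow]
    ring

end Pool.Agent.H85.NE
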