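import Mathlib

/-!
Frames: families of constraints on variables which are sorted by coordinates; every constraint
forbids one value of one variable for every coordinate. Two compositions of frames.
-/

set_option autoImplicit false

namespace Pool.Agent.H85.NE

/-- A frame. `ι r` are the variables of coordinate `r`, `A r` their values, `Z` the constraints:
the constraint `z` is violated by an assignment which gives, for every `r`, the variable
`(sc z r).1` the value `(sc z r).2`. The pairs `forb r` are never allowed. -/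
structure Frame (R : Type) where
  ι : R → Type
  A : R → Type
  Z : Type
  sc : Z → ∀ r, ι r × A r
  forb : ∀ r, ι r × A r → ι r × A r → Prop
  [fι : ∀ r, Fintype (ι r)]
  [fA : ∀ r, Fintype (A r)]
  [fZ : Fintype Z]

attribute [instance] Frame.fι Frame.fA Frame.fZ

variable {R : Type}

namespace Frame

/-- an assignment without forbidden pairs -/
def Ok (F : Frame R) (a : ∀ r, F.ι r → F.A r) : Prop :=
  ∀ r v v', ¬ F.forb r (v, a r v) (v', a r v')

/-- the assignment violates the constraint -/
def Match (F : Frame R) (a : ∀ r, F.ι r → F.A r) (z : F.Z) : Prop :=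
  ∀ r, a r (F.sc z r).1 = (F.sc z r).2

/-- every assignment violates a constraint which is present -/
def U (F : Frame R) (x : F.Z → Prop) : Prop :=
  ∀ a, F.Ok a → ∃ z, F.Match a z ∧ x z

theorem U.mono {F : Frame R} {x y : F.Z → Prop} (h : ∀ z, x z → y z) (hx : F.U x) : F.U y :=
  fun a ha => by
    obtain ⟨z, h1, h2⟩ := hx a ha
    exact ⟨z, h1, h z h2⟩

/-- independent copies -/
def copies (F : Frame R) (m : ℕ) : Frame R where
  ι r := Fin m × F.ι r
  A := F.A
  Z := Fin m × F.Z
  sc z r := ((z.1, (F.sc z.2 r).1), (F.sc z.2 r).2)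
  forb r p p' := p.1.1 = p'.1.1 ∧ F.forb r (p.1.2, p.2) (p'.1.2, p'.2)

/-- one more index, the same for all the variables of one coordinate -/
def modes [Fintype R] [DecidableEq R] (F : Frame R) (c : R → ℕ) : Frame R where
  ι := F.ι
  A r := Fin (c r) × F.A r
  Z := (∀ r, Fin (c r)) × F.Z
  sc z r := ((F.sc z.2 r).1, (z.1 r, (F.sc z.2 r).2))
  forb r p p' := p.2.1 ≠ p'.2.1 ∨ F.forb r (p.1, p.2.2) (p'.1, p'.2.2)

theorem U_copies (F : Frame R) (m : ℕ) (x : Fin m × F.Z → Prop) :
    (F.copies m).U x ↔ ∃ j, F.U fun z => x (j, z) := by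
  classical
  constructor
  · intro h
    by_contra hcon
    unfold U at hcon
    push Not at hcon
    choose a ha hno using hcon
    obtain ⟨⟨j, z⟩, h1, h2⟩ := h (fun r v => a v.1 r v.2) (by
      rintro r ⟨j, v⟩ ⟨j', v'⟩ ⟨hj, hf⟩
      have hj' : j = j' := hj
      subst hj'
      exact ha j r v v' hf)
    exact hno j z h1 h2
  · rintro ⟨j, hj⟩ a ha
    obtain ⟨z, h1, h2⟩ := hj (fun r v => a r (j, v)) fun r v v' hf =>
      ha r (j, v) (j, v') ⟨rfl, hf⟩
    exact ⟨(j, z), h1, h2⟩

theorem U_modes [Fintype R] [DecidableEq R] (F : Frame R) (hι : ∀ r, Nonempty (F.ι r))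
    (c : R → ℕ) (x : (∀ r, Fin (c r)) × F.Z → Prop) :
    (F.modes c).U x ↔ ∀ i, F.U fun z => x (i, z) := by
  classical
  constructor
  · intro h i a ha
    obtain ⟨⟨i', z⟩, h1, h2⟩ := h (fun r v => (i r, a r v)) (by
      rintro r v v' (hf | hf)
      · exact hf rfl
      · exact ha r v v' hf)
    have hi : i' = i := funext fun r => ((Prod.mk.inj (h1 r)).1).symm
    subst hi
    exact ⟨z, fun r => (Prod.mk.inj (h1 r)).2, h2⟩
  · intro h a ha
    have hc : ∀ r v, (a r v).1 = (a r (hι r).some).1 := by
      intro r v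
      by_contra hne
      exact ha r v (hι r).some (Or.inl hne)
    obtain ⟨z, h1, h2⟩ := h (fun r => (a r (hι r).some).1) (fun r v => (a r v).2)
      fun r v v' hf => ha r v v' (Or.inr hf)
    exact ⟨(_, z), fun r => Prod.ext (hc r _) (h1 r), h2⟩

theorem sc_injective_copies {F : Frame R} (h : Function.Injective F.sc) [Nonempty R] (m : ℕ) :
    Function.Injective (F.copies m).sc := by
  rintro ⟨j, z⟩ ⟨j', z'⟩ hz
  have hr : ∀ r, j = j' ∧ F.sc z r = F.sc z' r := by
    intro r
    have h1 := congrFun hz r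
    have h2 : ((j, (F.sc z r).1), (F.sc z r).2) = ((j', (F.sc z' r).1), (F.sc z' r).2) := h1
    simp only [Prod.mk.injEq] at h2
    exact ⟨h2.1.1, Prod.ext h2.1.2 h2.2⟩
  have hz' : z = z' := h (funext fun r => (hr r).2)
  exact Prod.ext (hr (Classical.arbitrary R)).1 hz'

theorem sc_injective_modes [Fintype R] [DecidableEq R] {F : Frame R}
    (h : Function.Injective F.sc) (c : R → ℕ) : Function.Injective (F.modes c).sc := by
  rintro ⟨i, z⟩ ⟨i', z'⟩ hz
  have hr : ∀ r, i r = i' r ∧ F.sc z r = F.sc z' r := by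
    intro r
    have h1 := congrFun hz r
    have h2 : ((F.sc z r).1, (i r, (F.sc z r).2)) = ((F.sc z' r).1, (i' r, (F.sc z' r).2)) := h1
    simp only [Prod.mk.injEq] at h2
    exact ⟨h2.2.1, Prod.ext h2.1 h2.2.2⟩
  exact Prod.ext (funext fun r => (hr r).1) (h (funext fun r => (hr r).2))

end Frame

end Pool.Agent.H85.NE
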