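import Pool.Agent.H85.NE.Frame
import Pool.Agent.H4.MH.Basic
import Pool.Agent.H4.MH.Count

/-!
Hardness of a frame for quantified circuits, and its preservation by the two compositions.
-/

set_option autoImplicit false

namespace Pool.Agent.H85.NE

open Finset
open Pool.Agent.H4.MH (Circuit Alt IsSub level)
open Pool.Agent.H25.NM (nc nc_congr nc_true nc_le_card)

variable {R : Type}

/-- the linear trade-off between the two sides -/
def Lin {X P Ω : Type} [Fintype P] [Fintype Ω] (pos : P → X) (neg : Ω → X)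
    (f : X → Prop) : Bool → Prop
  | true => (nc (fun p => f (pos p)) : ℝ) ≤
      (2 * (1 - nc (fun ω => ¬ f (neg ω)) / Fintype.card Ω) + 1 / 4) * Fintype.card P
  | false => (nc (fun ω => ¬ f (neg ω)) : ℝ) ≤
      (2 * (1 - nc (fun p => f (pos p)) / Fintype.card P) + 1 / 4) * Fintype.card Ω

/-- `f` is right on at most half of one side or on a small part of the other side -/
def Gap {X P Ω : Type} [Fintype P] [Fintype Ω] (pos : P → X) (neg : Ω → X) (c : ℕ)
    (f : X → Prop) : Bool → Prop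
  | true => Fintype.card P ≤ 2 ^ c * nc (fun p => f (pos p)) →
      2 * nc (fun ω => ¬ f (neg ω)) ≤ Fintype.card Ω
  | false => Fintype.card Ω ≤ 2 ^ c * nc (fun ω => ¬ f (neg ω)) →
      2 * nc (fun p => f (pos p)) ≤ Fintype.card P

theorem lin_num {x y A B : ℝ} (hA : 0 < A) (hB : 0 < B) (hxA : x ≤ A) (hyB : y ≤ B)
    (h : A ≤ 4 * x → 2 * y ≤ B) : x ≤ (2 * (1 - y / B) + 1 / 4) * A := by
  have h1 : y / B ≤ 1 := by
    rw [div_le_one hB]
    exact hyB
  by_cases h2 : A ≤ 4 * x
  · have h3 : y / B ≤ 1 / 2 := by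
      rw [div_le_iff₀ hB]
      linarith [h h2]
    have h4 : 1 * A ≤ (2 * (1 - y / B) + 1 / 4) * A :=
      mul_le_mul_of_nonneg_right (by linarith) hA.le
    linarith
  · have h4 : 1 / 4 * A ≤ (2 * (1 - y / B) + 1 / 4) * A :=
      mul_le_mul_of_nonneg_right (by linarith) hA.le
    linarith

theorem Gap.lin {X P Ω : Type} [Fintype P] [Fintype Ω] [Nonempty P] [Nonempty Ω] {pos : P → X}
    {neg : Ω → X} {f : X → Prop} {b : Bool} (h : Gap pos neg 2 f b) : Lin pos neg f b := by
  have hP : (0 : ℝ) < Fintype.card P := by exact_mod_cast Fintype.card_pos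
  have hΩ : (0 : ℝ) < Fintype.card Ω := by exact_mod_cast Fintype.card_pos
  have e1 : (nc (fun p => f (pos p)) : ℝ) ≤ Fintype.card P := Nat.cast_le.2 (nc_le_card _)
  have e2 : (nc (fun ω => ¬ f (neg ω)) : ℝ) ≤ Fintype.card Ω := Nat.cast_le.2 (nc_le_card _)
  cases b with
  | true =>
    refine lin_num hP hΩ e1 e2 fun h1 => ?_
    have h2 : Fintype.card P ≤ 2 ^ 2 * nc (fun p => f (pos p)) := by
      have : (Fintype.card P : ℝ) ≤ ((2 ^ 2 * nc (fun p => f (pos p)) : ℕ) : ℝ) := by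
        push_cast
        linarith
      exact_mod_cast this
    have h3 : 2 * nc (fun ω => ¬ f (neg ω)) ≤ Fintype.card Ω := h h2
    exact_mod_cast h3
  | false =>
    refine lin_num hΩ hP e2 e1 fun h1 => ?_
    have h2 : Fintype.card Ω ≤ 2 ^ 2 * nc (fun ω => ¬ f (neg ω)) := by
      have : (Fintype.card Ω : ℝ) ≤ ((2 ^ 2 * nc (fun ω => ¬ f (neg ω)) : ℕ) : ℝ) := by
        push_cast
        linarith
      exact_mod_cast this
    have h3 : 2 * nc (fun p => f (pos p)) ≤ Fintype.card P := h h2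
    exact_mod_cast h3

/-- There are distributions on the unsatisfiable and on the satisfiable sets of constraints such
that every circuit with this prefix and at most `S` gates satisfies the trade-off. -/
def HardL (F : Frame R) (S : ℕ) (b : Bool) (qs : List ℕ) : Prop :=
  ∃ (P Ω : Type) (_ : Fintype P) (_ : Fintype Ω) (_ : Nonempty P) (_ : Nonempty Ω)
    (pos : P → F.Z → Prop) (neg : Ω → F.Z → Prop),
    (∀ p, F.U (pos p)) ∧ (∀ ω, ¬ F.U (neg ω)) ∧
    ∀ s ≤ S, ∀ f : (F.Z → Prop) → Prop, Alt s b qs f → Lin pos neg f b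

/-- The same with a gap. -/
def HardG (F : Frame R) (S : ℕ) (b : Bool) (qs : List ℕ) (c : ℕ) : Prop :=
  ∃ (P Ω : Type) (_ : Fintype P) (_ : Fintype Ω) (_ : Nonempty P) (_ : Nonempty Ω)
    (pos : P → F.Z → Prop) (neg : Ω → F.Z → Prop),
    (∀ p, F.U (pos p)) ∧ (∀ ω, ¬ F.U (neg ω)) ∧
    ∀ s ≤ S, ∀ f : (F.Z → Prop) → Prop, Alt s b qs f → Gap pos neg c f b

theorem HardG.lin {F : Frame R} {S : ℕ} {b : Bool} {qs : List ℕ} (h : HardG F S b qs 2) :
    HardL F S b qs := by
  obtain ⟨P, Ω, _, _, _, _, pos, neg, hpos, hneg, hh⟩ := h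
  exact ⟨P, Ω, inferInstance, inferInstance, inferInstance, inferInstance, pos, neg, hpos, hneg,
    fun s hs f hf => (hh s hs f hf).lin⟩

theorem isSub_up {I Z : Type} (i : I) :
    IsSub fun (v : I × Z) (x : Z → Prop) => (v.1 = i → x v.2) := by
  intro v
  by_cases h : v.1 = i
  · exact Or.inl ⟨v.2, fun x => ⟨fun hx => hx h, fun hx _ => hx⟩⟩
  · exact Or.inr (Or.inl fun x hv => absurd hv h)

theorem isSub_dn {I Z : Type} (i : I) :
    IsSub fun (v : I × Z) (x : Z → Prop) => (v.1 = i ∧ x v.2) := by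
  intro v
  by_cases h : v.1 = i
  · exact Or.inl ⟨v.2, fun x => ⟨fun hx => hx.2, fun hx => ⟨h, hx⟩⟩⟩
  · exact Or.inr (Or.inr fun x hv => h hv.1)

theorem gap_num {m q c : ℕ} {A y : ℝ} (hA : 0 < A) (hm : 6 * (q + c) ≤ m)
    (h : y ≤ (7 / 5 * (q + c) + m * (1 / 4)) * A) : 2 * y ≤ m * A := by
  have h1 : (6 : ℝ) * (q + c) ≤ m := by exact_mod_cast hm
  have h2 : (7 / 5 * ((q : ℝ) + c) + m * (1 / 4)) * A ≤ (m / 2) * A := by
    refine mul_le_mul_of_nonneg_right ?_ hA.le
    have : (0 : ℝ) ≤ q + c := by positivity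
    linarith
  linarith

/-- **One existential block.** -/
theorem HardL.modes [Fintype R] [DecidableEq R] {F : Frame R} {S q c : ℕ} {qs : List ℕ}
    (h : HardL F S false qs) (hι : ∀ r, Nonempty (F.ι r)) (cc : R → ℕ) (hm0 : 0 < ∏ r, cc r)
    (hm : 6 * (q + c) ≤ ∏ r, cc r) :
    HardG (F.modes cc) S true (q :: qs) c := by
  classical
  obtain ⟨P, Ω, _, _, _, _, pos, neg, hpos, hneg, hh⟩ := h
  have hcard : Fintype.card (∀ r, Fin (cc r)) = ∏ r, cc r := by
    rw [Fintype.card_pi]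
    simp
  set m : ℕ := ∏ r, cc r with hmdef
  let e : Fin m ≃ (∀ r, Fin (cc r)) := (Fintype.equivFinOfCardEq hcard).symm
  have : Nonempty (Fin m) := ⟨⟨0, hm0⟩⟩
  refine ⟨Fin m → P, Fin m × Ω, inferInstance, inferInstance, inferInstance, inferInstance,
    fun p v => pos (p (e.symm v.1)) v.2, fun x v => (v.1 = e x.1 → neg x.2 v.2), ?_, ?_, ?_⟩
  · intro p
    exact (F.U_modes hι cc _).2 fun i => hpos (p (e.symm i))
  · rintro ⟨i, ω⟩ hT
    refine hneg ω ?_
    have h1 := (F.U_modes hι cc _).1 hT (e i)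
    have h2 : (fun z => (e i = e i → neg ω z)) = neg ω := by
      funext v
      exact propext ⟨fun hv => hv rfl, fun hv _ => hv⟩
    have h3 : F.U fun z => (e i = e i → neg ω z) := h1
    rwa [h2] at h3
  · intro s hs f hf
    obtain ⟨g, hg, hfg⟩ : ∃ g : (Fin q → Bool) → ((F.modes cc).Z → Prop) → Prop,
      (∀ y, Alt s false qs (g y)) ∧ ∀ x, f x ↔ ∃ y, g y x := hf
    intro h3
    have hmain := level (P := P) (Ω := Ω) (m := m) (q := q) (c := c) (δ := 1 / 4)
      (fun y p => g y (fun v => pos (p (e.symm v.1)) v.2))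
      (fun y i p => g y (fun v => (v.1 = e i → pos p v.2)))
      (fun y i ω => ¬ g y (fun v => (v.1 = e i → neg ω v.2))) ?_ ?_ ?_
    · have e1 : nc (fun x : Fin m × Ω => ∀ y, ¬ g y (fun v => (v.1 = e x.1 → neg x.2 v.2))) =
          nc (fun x : Fin m × Ω => ¬ f (fun v => (v.1 = e x.1 → neg x.2 v.2))) :=
        nc_congr fun x => by rw [hfg, not_exists]
      rw [e1] at hmain
      have hΩ : (0 : ℝ) < Fintype.card Ω := by exact_mod_cast Fintype.card_pos
      have h4 := gap_num hΩ hm hmain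
      show 2 * nc (fun x : Fin m × Ω => ¬ f (fun v => (v.1 = e x.1 → neg x.2 v.2))) ≤
        Fintype.card (Fin m × Ω)
      rw [Fintype.card_prod, Fintype.card_fin]
      exact_mod_cast h4
    · intro y p hp i
      refine (hg y).mono ?_ hp
      rintro ⟨j, v⟩ hv hj
      have hj' : j = e i := hj
      subst hj'
      have : e.symm (e i) = i := e.symm_apply_apply i
      simpa [this] using hv
    · intro y i
      exact hh s hs (fun x => g y (fun v => (v.1 = e i → x v.2))) ((hg y).subst (isSub_up (e i)))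
    · refine h3.trans (le_of_eq ?_)
      congr 1
      exact nc_congr fun p => hfg _

/-- **One universal block.** -/
theorem HardL.copies {F : Frame R} {S m q c : ℕ} {qs : List ℕ}
    (h : HardL F S true qs) (hm0 : 0 < m) (hm : 6 * (q + c) ≤ m) :
    HardG (F.copies m) S false (q :: qs) c := by
  classical
  obtain ⟨P, Ω, _, _, _, _, pos, neg, hpos, hneg, hh⟩ := h
  have : Nonempty (Fin m) := ⟨⟨0, hm0⟩⟩
  refine ⟨Fin m × P, Fin m → Ω, inferInstance, inferInstance, inferInstance, inferInstance,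
    fun x v => (v.1 = x.1 ∧ pos x.2 v.2), fun ω v => neg (ω v.1) v.2, ?_, ?_, ?_⟩
  · rintro ⟨i, p⟩
    refine (F.U_copies m _).2 ⟨i, ?_⟩
    have h2 : (fun v => ((i : Fin m) = i ∧ pos p v)) = pos p := by
      funext v
      exact propext ⟨fun hv => hv.2, fun hv => ⟨rfl, hv⟩⟩
    show F.U fun v => ((i : Fin m) = i ∧ pos p v)
    rw [h2]
    exact hpos p
  · intro ω hT
    obtain ⟨i, hi⟩ := (F.U_copies m _).1 hT
    exact hneg (ω i) hi
  · intro s hs f hf
    obtain ⟨g, hg, hfg⟩ : ∃ g : (Fin q → Bool) → ((F.copies m).Z → Prop) → Prop,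
      (∀ y, Alt s true qs (g y)) ∧ ∀ x, f x ↔ ∀ y, g y x := hf
    intro h3
    have hmain := level (P := Ω) (Ω := P) (m := m) (q := q) (c := c) (δ := 1 / 4)
      (fun y ω => ¬ g y (fun v => neg (ω v.1) v.2))
      (fun y i ω => ¬ g y (fun v => (v.1 = i ∧ neg ω v.2)))
      (fun y i p => g y (fun v => (v.1 = i ∧ pos p v.2))) ?_ ?_ ?_
    · have e1 : nc (fun x : Fin m × P => ∀ y, g y (fun v => (v.1 = x.1 ∧ pos x.2 v.2))) =
          nc (fun x : Fin m × P => f (fun v => (v.1 = x.1 ∧ pos x.2 v.2))) :=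
        nc_congr fun x => by rw [hfg]
      rw [e1] at hmain
      have hP : (0 : ℝ) < Fintype.card P := by exact_mod_cast Fintype.card_pos
      have h4 := gap_num hP hm hmain
      show 2 * nc (fun x : Fin m × P => f (fun v => (v.1 = x.1 ∧ pos x.2 v.2))) ≤
        Fintype.card (Fin m × P)
      rw [Fintype.card_prod, Fintype.card_fin]
      exact_mod_cast h4
    · intro y ω hω i hg'
      refine hω ((hg y).mono ?_ hg')
      rintro ⟨j, v⟩ ⟨hj, hv⟩
      have hj' : j = i := hj
      subst hj'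
      exact hv
    · intro y i
      exact hh s hs (fun x => g y (fun v => (v.1 = i ∧ x v.2))) ((hg y).subst (isSub_dn i))
    · refine h3.trans (le_of_eq ?_)
      congr 1
      refine nc_congr fun ω => ?_
      rw [hfg, not_forall]

/-- **No block: the same composition.** -/
theorem HardL.nil_true [Fintype R] [DecidableEq R] {F : Frame R} {S : ℕ}
    (h : HardL F S false []) (hι : ∀ r, Nonempty (F.ι r)) (cc : R → ℕ)
    (hm : 12 ≤ ∏ r, cc r) : HardL (F.modes cc) S true [] := by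
  obtain ⟨P, Ω, _, _, _, _, pos, neg, hpos, hneg, hh⟩ :=
    (HardL.modes (q := 0) (c := 2) h hι cc (by omega) (by omega)).lin
  refine ⟨P, Ω, inferInstance, inferInstance, inferInstance, inferInstance, pos, neg, hpos, hneg,
    fun s hs f hf => hh s hs f ⟨fun _ => f, fun _ => hf, fun x => ⟨fun h => ⟨fun i => i.elim0, h⟩, ?_⟩⟩⟩
  rintro ⟨_, h⟩
  exact h

end Pool.Agent.H85.NE
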