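import Pool.Agent.H85.NE.Small
import Pool.Agent.H85.NE.Comb

/-!
The lower bound in terms of real parameters.
-/

set_option autoImplicit false

namespace Pool.Agent.H85.NE

/-- the bound for the factors of the existential blocks -/
theorem exP_bound {b : Bool} {qs : List ℕ} {W J p u : ℝ}
    (hp : 1 ≤ p) (hJ : 1 < J) (hu : u = Real.log p / Real.log J)
    (hW : (2 : ℝ) ^ (qs.length + 1) ≤ W)
    (hex : ((12 ^ (qs.length + 1) * exProd b qs : ℕ) : ℝ) ≤ J) :
    (exP (fun q => ⌈((12 * (q + 1) : ℕ) : ℝ) ^ u⌉₊) b qs : ℝ) ≤ W * p := by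
  have hlJ : 0 < Real.log J := Real.log_pos hJ
  have hu0 : 0 ≤ u := by
    rw [hu]
    exact div_nonneg (Real.log_nonneg hp) hlJ.le
  refine (exP_le hu0 qs b).trans ?_
  refine mul_le_mul hW ?_ (by positivity) (le_trans (by positivity) hW)
  refine (Real.rpow_le_rpow (by positivity) hex hu0).trans (le_of_eq ?_)
  rw [Real.rpow_def_of_pos (by linarith), hu, mul_div_assoc', mul_comm, mul_div_assoc,
    div_self hlJ.ne', mul_one, Real.exp_log (by linarith)]

/-- division with rounding -/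
theorem floor_bound {n U : ℕ} {x : ℝ} (hU : 1 ≤ U) (hx : x ≤ (n : ℝ) / U) (hx1 : 1 ≤ x) :
    x ≤ 2 * ((n / U : ℕ) : ℝ) := by
  have h1 : n < U * (n / U + 1) := Nat.lt_mul_div_succ n (by omega)
  have h2 : (n : ℝ) < U * (((n / U : ℕ) : ℝ) + 1) := by exact_mod_cast h1
  have hU0 : (0 : ℝ) < U := by exact_mod_cast hU
  have h3 : x * U < U * (((n / U : ℕ) : ℝ) + 1) := by
    rw [le_div_iff₀ hU0] at hx
    linarith
  have h4 : x < ((n / U : ℕ) : ℝ) + 1 := by
    rw [mul_comm] at h3
    exact lt_of_mul_lt_mul_left h3 hU0.le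
  have h5 : (1 : ℝ) ≤ ((n / U : ℕ) : ℝ) := by
    have h6 : (0 : ℝ) < ((n / U : ℕ) : ℝ) := by linarith
    have h7 : 0 < n / U := by exact_mod_cast h6
    exact_mod_cast h7
  linarith

/-- the numbers of selectors -/
theorem sel_bound {n' d m : ℕ} (hd : 3 ≤ d) (hn' : 16 * (d + m) + 4 ≤ n') :
    m * (2 * (n' / (8 * (d + m))) + 1) ≤ n' / 2 := by
  set k := d + m with hk
  set P : ℕ := n' / (8 * k) with hP
  have hk8 : 0 < 8 * k := by omega
  have hPn : 8 * k * P ≤ n' := Nat.mul_div_le n' (8 * k)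
  rw [Nat.le_div_iff_mul_le (by norm_num)]
  have hmk : m ≤ k := by omega
  have h2 : m * (2 * P + 1) * 2 ≤ k * (2 * P + 1) * 2 := by
    apply Nat.mul_le_mul_right
    exact Nat.mul_le_mul_right _ hmk
  have h3 : k * (2 * P + 1) * 2 = (8 * k * P) / 2 + 2 * k := by
    have : 8 * k * P = 2 * (4 * k * P) := by ring
    rw [this, Nat.mul_div_cancel_left _ (by norm_num)]
    ring
  omega

/-- The lower bound, in terms of real numbers: `Y = n / u`, `W` the cost of the number of blocks,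
`L₁` the number of variables of the base. -/
theorem fin_main {d m n S q g : ℕ} (hd : 3 ≤ d) {Y W L₁ : ℝ} (hW1 : 1 ≤ W) (hL₁ : 1 ≤ L₁)
    (b : Bool) (qs L : List ℕ) (hL : L = (q + g) :: qs) (hW : (24 : ℝ) ^ (L.length + 1) ≤ W)
    (hY : Y = (n : ℝ) / exProd (!b) L)
    (h1 : 8 * W ^ 2 * L₁ ≤ Y) (h2 : 32 * ((d + m : ℕ) : ℝ) * W ^ 2 ≤ Y)
    (h3 : (32 * ((d + m : ℕ) : ℝ) + 8) * W ≤ Y)
    (h4 : (exProd b L : ℝ) *
      (W * ((8 * W ^ 2 * L₁) ^ d * (32 * ((d + m : ℕ) : ℝ) * W ^ 2) ^ m)) ≤ Y ^ (d + m))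
    (hbase : ∃ (V D M : ℕ) (H : Fin M → Fin d → Fin V), 1 ≤ V ∧ 1 ≤ D ∧ Function.Injective H ∧
        ((d * V * (2 * D + 1) : ℕ) : ℝ) ≤ L₁ ∧ HardL (baseF H D m) S false []) :
    HardSat n (d + m) S b (q :: qs) g := by
  obtain ⟨V, D, M, H, hV, hD, hinj, hvars, hhard⟩ := hbase
  set B : ℕ := d * V * (2 * D + 1) with hB
  have hk0 : (0 : ℝ) < ((d + m : ℕ) : ℝ) := by
    have : 0 < d + m := by omega
    exact_mod_cast this
  have hW0 : 0 < W := by linarith
  have hL0 : 0 < L₁ := by linarith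
  have hB1 : 1 ≤ B := by
    have : 0 < d * V * (2 * D + 1) := by
      have : 0 < d := by omega
      have : 0 < V := hV
      positivity
    exact this
  have hu1 : 1 ≤ exProd (!b) L := exProd_pos L (!b)
  have he1 : 1 ≤ exProd b L := exProd_pos L b
  have hu1R : (1 : ℝ) ≤ exProd (!b) L := by exact_mod_cast hu1
  have he1R : (1 : ℝ) ≤ exProd b L := by exact_mod_cast he1
  -- the cost of the number of blocks
  have hW2 : (2 : ℝ) ^ (L.length + 1) ≤ W :=
    le_trans (pow_le_pow_left₀ (by norm_num) (by norm_num) _) hW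
  have hW12 : ((12 ^ (L.length + 1) : ℕ) : ℝ) ≤ W := by
    refine le_trans ?_ hW
    push_cast
    exact pow_le_pow_left₀ (by norm_num) (by norm_num) _
  have hW12' : ((12 ^ L.length : ℕ) : ℝ) ≤ W := by
    refine le_trans ?_ hW12
    have : 12 ^ L.length ≤ 12 ^ (L.length + 1) :=
      Nat.pow_le_pow_right (by norm_num) (Nat.le_succ _)
    exact_mod_cast this
  -- the universal blocks
  set U : ℕ := allP b L with hU
  have hU1 : 1 ≤ U := allP_pos L b
  have hU0 : (0 : ℝ) < U := by exact_mod_cast hU1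
  have hUle : (U : ℝ) ≤ W * exProd (!b) L := by
    have h5 : U ≤ 12 ^ L.length * exProd (!b) L := allP_le L b
    have h6 : (U : ℝ) ≤ ((12 ^ L.length * exProd (!b) L : ℕ) : ℝ) := by exact_mod_cast h5
    refine h6.trans ?_
    rw [Nat.cast_mul]
    exact mul_le_mul_of_nonneg_right hW12' (by positivity)
  have hYW : Y / W ≤ (n : ℝ) / U := by
    rw [hY, div_div]
    refine div_le_div_of_nonneg_left (by positivity) hU0 ?_
    linarith
  have hYW1 : 1 ≤ Y / W := by
    rw [le_div_iff₀ hW0, one_mul]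
    refine le_trans ?_ h3
    calc W = 1 * W := (one_mul _).symm
      _ ≤ (32 * ((d + m : ℕ) : ℝ) + 8) * W := mul_le_mul_of_nonneg_right (by linarith) hW0.le
  have hn' : Y / W ≤ 2 * ((n / U : ℕ) : ℝ) := floor_bound hU1 hYW hYW1
  have hUn : U * (n / U) ≤ n := Nat.mul_div_le n U
  set n' : ℕ := n / U with hn'def
  have hn'W : Y ≤ 2 * W * n' := by
    rw [div_le_iff₀ hW0] at hn'
    linarith
  have hn'16 : 16 * (d + m) + 4 ≤ n' := by
    have h5 : W * (32 * ((d + m : ℕ) : ℝ) + 8) ≤ W * (2 * n') := by linarith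
    have h6 : (32 * ((d + m : ℕ) : ℝ) + 8) ≤ 2 * n' := le_of_mul_le_mul_left h5 hW0
    have h7 : (16 * ((d + m : ℕ) : ℝ) + 4) ≤ n' := by linarith
    exact_mod_cast h7
  -- the numbers of values
  set p : ℕ := n' / (2 * B) with hp
  set P : ℕ := n' / (8 * (d + m)) with hP
  have hB0 : (0 : ℝ) < B := by exact_mod_cast hB1
  have hpge : Y / (8 * W * L₁) ≤ p := by
    have h5 : Y / (2 * W) / (2 * L₁) ≤ (n' : ℝ) / ((2 * B : ℕ) : ℝ) := by
      push_cast
      refine div_le_div₀ (by positivity) ?_ (by positivity) (by linarith)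
      rw [div_le_iff₀ (by positivity)]
      linarith
    have h6 : 1 ≤ Y / (2 * W) / (2 * L₁) := by
      rw [div_div, le_div_iff₀ (by positivity), one_mul]
      refine le_trans ?_ h1
      have : W * L₁ ≤ W ^ 2 * L₁ := by
        refine mul_le_mul_of_nonneg_right ?_ hL0.le
        rw [sq]
        exact le_mul_of_one_le_left hW0.le hW1
      have h7 : 0 ≤ W * L₁ := by positivity
      linarith
    have h7 := floor_bound (by omega) h5 h6
    have h8 : Y / (8 * W * L₁) = Y / (2 * W) / (2 * L₁) / 2 := by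
      rw [div_div, div_div]
      congr 1
      ring
    rw [h8]
    linarith
  have hPge : Y / (32 * ((d + m : ℕ) : ℝ) * W) ≤ P := by
    have h5 : Y / (2 * W) / (8 * ((d + m : ℕ) : ℝ)) ≤ (n' : ℝ) / ((8 * (d + m) : ℕ) : ℝ) := by
      rw [Nat.cast_mul, Nat.cast_ofNat]
      refine div_le_div_of_nonneg_right ?_ (by positivity)
      rw [div_le_iff₀ (by positivity)]
      linarith
    have h6 : 1 ≤ Y / (2 * W) / (8 * ((d + m : ℕ) : ℝ)) := by
      rw [div_div, le_div_iff₀ (by positivity), one_mul]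
      refine le_trans ?_ h3
      have : 0 ≤ ((d + m : ℕ) : ℝ) * W := by positivity
      linarith
    have h7 := floor_bound (by omega) h5 h6
    have h8 : Y / (32 * ((d + m : ℕ) : ℝ) * W) =
        Y / (2 * W) / (8 * ((d + m : ℕ) : ℝ)) / 2 := by
      rw [div_div, div_div]
      congr 1
      ring
    rw [h8]
    linarith
  -- the numbers with the cost of the number of blocks
  set p' : ℝ := Y / (8 * W ^ 2 * L₁) with hp'
  set P' : ℝ := Y / (32 * ((d + m : ℕ) : ℝ) * W ^ 2) with hP'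
  have hp'1 : 1 ≤ p' := by
    rw [hp', le_div_iff₀ (by positivity)]
    linarith
  have hP'1 : 1 ≤ P' := by
    rw [hP', le_div_iff₀ (by positivity)]
    linarith
  have hWp : W * p' ≤ p := by
    refine le_trans (le_of_eq ?_) hpge
    rw [hp']
    field_simp
  have hWP : W * P' ≤ P := by
    refine le_trans (le_of_eq ?_) hPge
    rw [hP']
    field_simp
  set J : ℝ := p' ^ d * P' ^ m with hJ
  have hJe : (exProd b L : ℝ) * W ≤ J := by
    have h6 : J = Y ^ (d + m) / ((8 * W ^ 2 * L₁) ^ d * (32 * ((d + m : ℕ) : ℝ) * W ^ 2) ^ m) := by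
      rw [hJ, hp', hP', div_pow, div_pow, div_mul_div_comm, ← pow_add]
    rw [h6, le_div_iff₀ (by positivity)]
    refine le_trans (le_of_eq ?_) h4
    ring
  have hJge : ((12 ^ (L.length + 1) * exProd b L : ℕ) : ℝ) ≤ J := by
    refine le_trans ?_ hJe
    rw [Nat.cast_mul, mul_comm]
    exact mul_le_mul_of_nonneg_left hW12 (by positivity)
  have hJ1 : 1 < J := by
    have h5 : (1 : ℝ) < W := by
      refine lt_of_lt_of_le ?_ hW
      exact one_lt_pow₀ (by norm_num) (by omega)
    have h6 : W ≤ exProd b L * W := le_mul_of_one_le_left hW0.le he1R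
    linarith
  have hlJ : 0 < Real.log J := Real.log_pos hJ1
  have hw : (d : ℝ) * (Real.log p' / Real.log J) + m * (Real.log P' / Real.log J) = 1 := by
    have h5 : Real.log J = d * Real.log p' + m * Real.log P' := by
      rw [hJ, Real.log_mul (by positivity) (by positivity), Real.log_pow, Real.log_pow]
    have h6 : (d : ℝ) * (Real.log p' / Real.log J) + m * (Real.log P' / Real.log J) =
        (d * Real.log p' + m * Real.log P') / Real.log J := by ring
    rw [h6, ← h5, div_self hlJ.ne']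
  have hP2 := sel_bound hd hn'16
  have h9 : d * V * (2 * (p * D) + 1) + m * (2 * P + 1) ≤ n' := by
    have h5 : d * V * (2 * (p * D) + 1) ≤ n' / 2 := by
      have h6 : 1 ≤ p := by
        have : (1 : ℝ) ≤ p := by
          refine le_trans ?_ hWp
          exact one_le_mul_of_one_le_of_one_le hW1 hp'1
        exact_mod_cast this
      have h7 : p * (2 * B) ≤ n' := Nat.div_mul_le_self n' (2 * B)
      have h8 : d * V * (2 * (p * D) + 1) ≤ p * B := by
        calc d * V * (2 * (p * D) + 1) ≤ d * V * (2 * (p * D) + p) :=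
              Nat.mul_le_mul_left _ (by omega)
          _ = p * B := by rw [hB]; ring
      rw [Nat.le_div_iff_mul_le (by norm_num)]
      calc d * V * (2 * (p * D) + 1) * 2 ≤ p * B * 2 := Nat.mul_le_mul_right _ h8
        _ = p * (2 * B) := by ring
        _ ≤ n' := h7
    have h10 := Nat.add_le_add h5 hP2
    refine h10.trans ?_
    omega
  have h11 : exP (fun q => ⌈((12 * (q + 1) : ℕ) : ℝ) ^ (Real.log p' / Real.log J)⌉₊) b L ≤ p := by
    have h5 := exP_bound (b := b) (qs := L) hp'1 hJ1 rfl hW2 hJge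
    exact_mod_cast h5.trans hWp
  have h12 : exP (fun q => ⌈((12 * (q + 1) : ℕ) : ℝ) ^ (Real.log P' / Real.log J)⌉₊) b L ≤ P := by
    have h5 := exP_bound (b := b) (qs := L) hP'1 hJ1 rfl hW2 hJge
    exact_mod_cast h5.trans hWP
  subst hL
  exact comb hd hw b qs hUn h9 hV hinj hhard h11 h12

end Pool.Agent.H85.NE
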