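import Pool.Agent.H85.NE.Base
import Pool.Agent.H25.NA.Params

/-!
The parameters of the base frame.
-/

set_option autoImplicit false

namespace Pool.Agent.H85.NE

theorem base_exists (d β a : ℕ) (hd : 3 ≤ d) (hβ : 3 ≤ β) (ha : a + 1 = β * (d - 1))
    (E₁ τ : ℝ) (hE0 : 0 < E₁) (hτ : 0 ≤ τ) (hE : τ + E₁ * (1 + (β : ℝ) / a) < 1) :
    ∃ n1 : ℕ, ∀ n : ℕ, n1 ≤ n → ∀ m s : ℕ,
      (n : ℝ) ^ (d + 2) + s ≤ (2 : ℝ) ^ ((n : ℝ) ^ E₁ - 3) →
      ∃ (V D M p : ℕ) (H : Fin M → Fin d → Fin V), 1 ≤ V ∧ 1 ≤ D ∧ Function.Injective H ∧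
        (n : ℝ) ^ τ ≤ p ∧ d * V * (2 * (p * D) + 1) ≤ n ∧
        HardL (baseF H D m) s false [] := by
  obtain ⟨n0, hn0⟩ := Pool.Agent.H25.NA.apex_params d (d + 1) β a hd (by omega) hβ ha E₁ τ
    hE0 hτ hE
  refine ⟨max n0 8, fun n hn m s hs => ?_⟩
  obtain ⟨c', V, D, M, g, ρ, p, hc2, hcE, hp1, hpτ, hpn, hV, hD, hN, hH, hρ1, hρ, hg, hR, hG, hM,
    hvars⟩ := hn0 n ((le_max_left _ _).trans hn)
  have hn2 : 8 ≤ n := (le_max_right _ _).trans hn
  -- the bound for the number of constraints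
  have hden : V ≤ n ∧ D ≤ n := by
    have h1 : 1 ≤ p * D := Nat.mul_pos hp1 hD
    have h2 : 1 ≤ d := by omega
    constructor
    · refine le_trans ?_ hvars
      calc V = 1 * V * 1 := by ring
        _ ≤ d * V * (2 * (p * D) + 1) :=
          Nat.mul_le_mul (Nat.mul_le_mul_right _ h2) (by omega)
    · refine le_trans ?_ hvars
      have h3 : 1 ≤ d * V := Nat.mul_pos h2 hV
      have h4 : D ≤ p * D := Nat.le_mul_of_pos_left _ hp1
      calc D = 1 * D := by ring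
        _ ≤ d * V * (2 * (p * D) + 1) := Nat.mul_le_mul h3 (by omega)
  have hMV : M ≤ V ^ 2 := by
    have h1 : M ^ β ≤ (V ^ 2) ^ β := by
      calc M ^ β = 1 * M ^ β * 1 := by ring
        _ ≤ (12 ^ β * 3 ^ a * d ^ (d * β)) * M ^ β * (2 * c') := by
            refine Nat.mul_le_mul (Nat.mul_le_mul_right _ ?_) (by omega)
            have : 0 < d := by omega
            have : 0 < 12 ^ β * 3 ^ a * d ^ (d * β) := by positivity
            exact this
        _ ≤ V ^ (β + 1) := hH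
        _ ≤ V ^ (2 * β) := Nat.pow_le_pow_right hV (by omega)
        _ = (V ^ 2) ^ β := by rw [← pow_mul]
    exact (Nat.pow_le_pow_iff_left (by omega)).1 h1
  have hMD : M * D ^ d ≤ n ^ (d + 2) := by
    calc M * D ^ d ≤ n ^ 2 * n ^ d := Nat.mul_le_mul
          (hMV.trans (Nat.pow_le_pow_left hden.1 2)) (Nat.pow_le_pow_left hden.2 d)
      _ = n ^ (d + 2) := by rw [← pow_add]; congr 1; ring
  have hM' : 16 * D ^ (d * V) ≤ 2 ^ M := by
    refine le_trans ?_ hM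
    have h1 : (d + 1) - d = 1 := by omega
    rw [h1, pow_one]
    calc 16 * D ^ (d * V) = 2 * D ^ (d * V) * 8 := by ring
      _ ≤ 2 * (p * D) ^ (d * V) * n := by
        refine Nat.mul_le_mul (Nat.mul_le_mul_left _ (Nat.pow_le_pow_left ?_ _)) hn2
        exact Nat.le_mul_of_pos_left _ hp1
  have he : 2 * (((M * D ^ d + s : ℕ) : ℝ) * ((M * D ^ d + s : ℕ) : ℝ) + 1) * (1 / 4) ^ c' ≤
      1 / 32 := by
    set x : ℝ := ((M * D ^ d + s : ℕ) : ℝ) with hx
    set y : ℝ := (n : ℝ) ^ E₁ - 3 with hy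
    have hx0 : 0 ≤ x := by
      rw [hx]
      positivity
    have hxy : x ≤ 2 ^ y := by
      refine le_trans ?_ hs
      rw [hx, Nat.cast_add]
      have : ((M * D ^ d : ℕ) : ℝ) ≤ (n : ℝ) ^ (d + 2) := by exact_mod_cast hMD
      linarith
    have h1y : (1 : ℝ) ≤ 2 ^ y := by
      refine le_trans ?_ hs
      have h1 : (1 : ℝ) ≤ n := by exact_mod_cast (by omega : 1 ≤ n)
      have h2 : (1 : ℝ) ≤ (n : ℝ) ^ (d + 2) := one_le_pow₀ h1
      have h3 : (0 : ℝ) ≤ s := Nat.cast_nonneg s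
      linarith
    have h4y : (4 : ℝ) ^ y = 2 ^ y * 2 ^ y := by
      rw [← Real.mul_rpow (by norm_num) (by norm_num)]
      norm_num
    have hxx : x * x + 1 ≤ 2 * 4 ^ y := by
      rw [h4y]
      have h5 : x * x ≤ 2 ^ y * 2 ^ y := mul_le_mul hxy hxy hx0 (by positivity)
      have h6 : (1 : ℝ) ≤ 2 ^ y * 2 ^ y := one_le_mul_of_one_le_of_one_le h1y h1y
      linarith
    have hc' : (1 / 4 : ℝ) ^ c' ≤ (4 : ℝ) ^ (-(y + 4)) := by
      have h1 : (1 / 4 : ℝ) ^ c' = (4 : ℝ) ^ (-(c' : ℝ)) := by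
        rw [Real.rpow_neg (by norm_num), Real.rpow_natCast, one_div, inv_pow]
      rw [h1]
      refine Real.rpow_le_rpow_of_exponent_le (by norm_num) ?_
      have h2 : ((c' - 1 : ℕ) : ℝ) = (c' : ℝ) - 1 := by
        rw [Nat.cast_sub (by omega)]
        norm_num
      rw [h2] at hcE
      linarith
    calc 2 * (x * x + 1) * (1 / 4) ^ c'
        ≤ 2 * (2 * 4 ^ y) * (4 : ℝ) ^ (-(y + 4)) := by
          refine mul_le_mul (mul_le_mul_of_nonneg_left hxx (by norm_num)) hc' (by positivity)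
            (by positivity)
      _ = 4 * ((4 : ℝ) ^ y * (4 : ℝ) ^ (-(y + 4))) := by ring
      _ ≤ 1 / 32 := by
          rw [← Real.rpow_add (by norm_num)]
          have : y + -(y + 4) = ((-4 : ℤ) : ℝ) := by push_cast; ring
          rw [this, Real.rpow_intCast]
          norm_num
  obtain ⟨H, hinj, hhard⟩ := base_hard (m := m) hd hβ ha hc2 hV hD hN hH hρ1 hρ hg hR hG hM' he
  exact ⟨V, D, M, p, H, hV, hD, hinj, hpτ, hvars, hhard⟩

end Pool.Agent.H85.NE
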