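import Pool.Agent.H85.NE.Params
import Pool.Agent.H85.NE.Asym
import Pool.Agent.H25.NS.Main

/-!
The base frame which is hard for circuits with `2 ^ l` gates.
-/

set_option autoImplicit false

namespace Pool.Agent.H85.NE

open Filter

theorem base_small (d : ℕ) (hd : 3 ≤ d) (K₁ : ℝ) (hK₁ : (d : ℝ) / ((d : ℝ) - 1) < K₁) :
    ∀ᶠ l : ℝ in atTop, ∀ m s : ℕ, (s : ℝ) ≤ 2 ^ l →
      ∃ (V D M : ℕ) (H : Fin M → Fin d → Fin V), 1 ≤ V ∧ 1 ≤ D ∧ Function.Injective H ∧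
        ((d * V * (2 * D + 1) : ℕ) : ℝ) ≤ l ^ K₁ ∧
        HardL (baseF H D m) s false [] := by
  have hd3 : (3 : ℝ) ≤ d := by exact_mod_cast hd
  have hd0 : (0 : ℝ) < d := by linarith
  have hd1 : (0 : ℝ) < (d : ℝ) - 1 := by linarith
  have hK0 : 0 < K₁ := lt_trans (by positivity) hK₁
  have hgap : 1 / K₁ < ((d : ℝ) - 1) / d := by
    rw [div_lt_iff₀ hd1] at hK₁
    rw [div_lt_div_iff₀ hK0 hd0]
    linarith
  obtain ⟨E, hE, hE'⟩ := exists_between hgap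
  obtain ⟨E₃, hE₃, hE₃'⟩ := exists_between hE'
  obtain ⟨E₁, hE₁, hE₁'⟩ := exists_between hE₃'
  have hE0 : 0 < E := lt_trans (by positivity) hE
  have hE₃0 : 0 < E₃ := hE0.trans hE₃
  have hE₁0 : 0 < E₁ := hE₃0.trans hE₁
  have hE₁1 : E₁ ≤ 1 := by
    refine hE₁'.le.trans ?_
    rw [div_le_one hd0]
    linarith
  have hγ : 0 < (1 - E₁ * (d / ((d : ℝ) - 1))) / 2 := by
    have h1 : E₁ * (d / ((d : ℝ) - 1)) < ((d : ℝ) - 1) / d * (d / ((d : ℝ) - 1)) :=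
      mul_lt_mul_of_pos_right hE₁' (by positivity)
    have h2 : ((d : ℝ) - 1) / d * (d / ((d : ℝ) - 1)) = 1 := by field_simp
    linarith
  obtain ⟨β, a, hβ3, ha, hβa⟩ := Pool.Agent.H25.NS.exists_beta d hd hE₁0 hE₁1 hγ
  obtain ⟨n1, hn1⟩ := base_exists d β a hd hβ3 ha E₁ 0 hE₁0 le_rfl (by linarith)
  -- the inequalities for a large number of variables
  have Q1 : ∀ᶠ x : ℝ in atTop, 5 * x ^ E₃ ≤ x ^ E₁ := ev_rpow _ _ _ hE₁
  have Q2 : ∀ᶠ x : ℝ in atTop, 2 * ((d : ℝ) + 2) * Real.log x + 4 ≤ (x / 1) ^ E₁ :=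
    ev_log _ _ _ _ (by norm_num) hE₁0
  obtain ⟨x₀, hx₀⟩ := eventually_atTop.1 ((Q1.and Q2).and ((eventually_ge_atTop 2).and
    (eventually_ge_atTop (n1 : ℝ))))
  -- the inequalities for large l
  have hKE : 1 < K₁ * E := by
    rw [div_lt_iff₀ hK0] at hE
    linarith
  have R1 : ∀ᶠ x : ℝ in atTop, 1 * x ^ (1 : ℝ) ≤ (x / 2) ^ (K₁ * E) :=
    ev_div_rpow _ _ _ _ (by norm_num) hKE
  have R2 : ∀ᶠ x : ℝ in atTop, x₀ + 2 ≤ x ^ K₁ :=
    (tendsto_rpow_atTop hK0).eventually_ge_atTop _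
  have R3 : ∀ᶠ x : ℝ in atTop, 2 * (x / 2) ^ K₁ ≤ x ^ K₁ := by
    filter_upwards [eventually_gt_atTop 0] with x hx
    rw [Real.div_rpow hx.le (by norm_num)]
    have h1 : (2 : ℝ) ^ (1 : ℝ) ≤ 2 ^ K₁ := by
      refine Real.rpow_le_rpow_of_exponent_le (by norm_num) ?_
      have : 1 ≤ (d : ℝ) / ((d : ℝ) - 1) := by
        rw [le_div_iff₀ hd1]
        linarith
      linarith
    rw [Real.rpow_one] at h1
    rw [mul_div_assoc', div_le_iff₀ (by positivity), mul_comm]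
    exact mul_le_mul_of_nonneg_left h1 (by positivity)
  filter_upwards [R1, R2, R3, eventually_gt_atTop 0] with l r1 r2 r3 hl m s hs
  set n : ℕ := ⌊l ^ K₁⌋₊ with hn
  have hnle : (n : ℝ) ≤ l ^ K₁ := Nat.floor_le (by positivity)
  have hnge : l ^ K₁ - 1 < n := Nat.sub_one_lt_floor _
  have hnx : x₀ ≤ (n : ℝ) := by linarith
  obtain ⟨⟨q1, q2⟩, q3, q4⟩ := hx₀ n hnx
  rw [div_one] at q2
  have hn1n : n1 ≤ n := by exact_mod_cast q4
  have hn1R : (1 : ℝ) ≤ n := by linarith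
  have hlE : l ≤ (n : ℝ) ^ E := by
    have h1 : (l / 2) ^ K₁ ≤ (n : ℝ) := by
      have h2 : (0 : ℝ) < (l / 2) ^ K₁ := by positivity
      by_cases h3 : (1 : ℝ) ≤ (l / 2) ^ K₁
      · linarith
      · push Not at h3
        linarith
    calc l = 1 * l ^ (1 : ℝ) := by rw [Real.rpow_one, one_mul]
      _ ≤ (l / 2) ^ (K₁ * E) := r1
      _ = ((l / 2) ^ K₁) ^ E := by rw [Real.rpow_mul (by positivity)]
      _ ≤ (n : ℝ) ^ E := Real.rpow_le_rpow (by positivity) h1 hE0.le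
  have hs' : (s : ℝ) ≤ 2 ^ ((n : ℝ) ^ E) :=
    hs.trans (Real.rpow_le_rpow_of_exponent_le (by norm_num) hlE)
  have hsize : (n : ℝ) ^ (d + 2) + s ≤ (2 : ℝ) ^ ((n : ℝ) ^ E₁ - 3) := by
    have h3 : (2 : ℝ) ^ ((n : ℝ) ^ E₁ - 3) =
        2 ^ ((n : ℝ) ^ E₁ - 4) + 2 ^ ((n : ℝ) ^ E₁ - 4) := by
      have : (n : ℝ) ^ E₁ - 3 = ((n : ℝ) ^ E₁ - 4) + 1 := by ring
      rw [this, Real.rpow_add_one (by norm_num)]
      ring
    rw [h3]
    refine add_le_add ?_ ?_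
    · have h5 : (n : ℝ) ^ (d + 2) = Real.exp ((d + 2) * Real.log n) := by
        have h6 : ((d : ℝ) + 2) * Real.log n = Real.log ((n : ℝ) ^ (d + 2)) := by
          rw [Real.log_pow]
          push_cast
          ring
        rw [h6, Real.exp_log (by positivity)]
      rw [h5, Real.rpow_def_of_pos (by norm_num)]
      refine Real.exp_le_exp.2 ?_
      have h10 : (1 / 2 : ℝ) ≤ Real.log 2 := by
        have := Real.log_two_gt_d9
        linarith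
      have h11 : 0 ≤ Real.log n := Real.log_nonneg hn1R
      have h12 : 0 ≤ 2 * (((d : ℝ) + 2) * Real.log n) := by positivity
      calc ((d : ℝ) + 2) * Real.log n = 1 / 2 * (2 * (((d : ℝ) + 2) * Real.log n)) := by ring
        _ ≤ Real.log 2 * ((n : ℝ) ^ E₁ - 4) := mul_le_mul h10 (by linarith) h12 (by linarith)
    · refine hs'.trans (Real.rpow_le_rpow_of_exponent_le (by norm_num) ?_)
      have h4 : (n : ℝ) ^ E ≤ (n : ℝ) ^ E₃ := Real.rpow_le_rpow_of_exponent_le hn1R hE₃.le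
      have h5 : (1 : ℝ) ≤ (n : ℝ) ^ E₃ := Real.one_le_rpow hn1R hE₃0.le
      linarith
  obtain ⟨V, D, M, p, H, hV, hD, hinj, hp, hvars, hhard⟩ := hn1 n hn1n m s hsize
  refine ⟨V, D, M, H, hV, hD, hinj, ?_, hhard⟩
  refine le_trans ?_ hnle
  have h1 : 1 ≤ p := by
    rw [Real.rpow_zero] at hp
    exact_mod_cast hp
  have h2 : d * V * (2 * D + 1) ≤ d * V * (2 * (p * D) + 1) := by
    refine Nat.mul_le_mul_left _ ?_
    have : D ≤ p * D := Nat.le_mul_of_pos_left _ h1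
    omega
  exact_mod_cast h2.trans hvars

end Pool.Agent.H85.NE
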