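import Pool.Agent.H85.NE.Defs

/-!
Upper bounds: one block of bits and one gate.
-/

set_option autoImplicit false

namespace Pool.Agent.H85.NE

open H13 (Clause Satisfiable)
open Pool.Agent.H4.MH (Circuit Quant)

/-- one OR gate -/
def orC {X : Type} (S : Set X) : Circuit X 1 where
  fn _ x := ∃ v ∈ S, x v
  gate _ := ⟨S, ∅, fun j hj => absurd hj (Set.notMem_empty j), Or.inr fun x => by simp⟩

/-- one AND gate -/
def andC {X : Type} (S : Set X) : Circuit X 1 where
  fn _ x := ∀ v ∈ S, x v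
  gate _ := ⟨S, ∅, fun j hj => absurd hj (Set.notMem_empty j), Or.inl fun x => by simp⟩

theorem upper_all (n k : ℕ) : ∃ C : List Bool → Circuit (Clause n k) 1,
    ∀ Φ : Finset (Clause n k), ¬ Satisfiable Φ ↔ Accepts false [n] C (fun _ => 0) Φ := by
  refine ⟨fun y => orC {c | ∀ l ∈ c.1, y.getD l.1.1 false ≠ l.2}, fun Φ => ?_⟩
  show _ ↔ ∀ y : List Bool, y.length = n →
    ∃ c ∈ {c : Clause n k | ∀ l ∈ c.1, (y ++ []).getD l.1.1 false ≠ l.2}, c ∈ Φ
  constructor
  · intro h y _
    by_contra hcon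
    refine h ⟨fun v => (y ++ []).getD v.1 false, fun c hc => ?_⟩
    by_contra hno
    refine hcon ⟨c, fun l hl hl2 => hno ⟨l, hl, hl2⟩, hc⟩
  · rintro h ⟨τ, hτ⟩
    obtain ⟨c, h1, h2⟩ := h (List.ofFn τ) List.length_ofFn
    obtain ⟨l, h3, h4⟩ := hτ c h2
    refine h1 l h3 ?_
    rw [List.append_nil, List.getD_eq_getElem (l := List.ofFn τ) false (by simp)]
    simpa using h4

theorem upper_ex (n k : ℕ) : ∃ C : List Bool → Circuit (Clause n k) 1,
    ∀ Φ : Finset (Clause n k), ¬ Satisfiable Φ ↔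
      Accepts true [Fintype.card (Clause n k)] C (fun _ => 0) Φ := by
  classical
  let e : Clause n k ≃ Fin (Fintype.card (Clause n k)) := Fintype.equivFin _
  let S : List Bool → Finset (Clause n k) := fun y =>
    Finset.univ.filter fun c => y.getD (e c).1 false = true
  refine ⟨fun y => if ¬ Satisfiable (S y) then andC {c | c ∈ S y} else orC ∅, fun Φ => ?_⟩
  show _ ↔ ∃ y : List Bool, y.length = Fintype.card (Clause n k) ∧
    (if ¬ Satisfiable (S (y ++ [])) then andC {c | c ∈ S (y ++ [])} else orC ∅).fn 0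
      (fun c => c ∈ Φ)
  constructor
  · intro h
    refine ⟨List.ofFn fun i => decide (e.symm i ∈ Φ), List.length_ofFn, ?_⟩
    have hS : S (List.ofFn (fun i => decide (e.symm i ∈ Φ)) ++ []) = Φ := by
      ext c
      rw [Finset.mem_filter, List.append_nil, List.getD_eq_getElem
        (l := List.ofFn fun i => decide (e.symm i ∈ Φ)) false (by simp)]
      simp
    rw [hS, if_pos h]
    exact fun c hc => hc
  · rintro ⟨y, _, h⟩
    by_cases h1 : ¬ Satisfiable (S (y ++ []))
    · rw [if_pos h1] at h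
      rintro ⟨τ, hτ⟩
      exact h1 ⟨τ, fun c hc => hτ c (h c hc)⟩
    · rw [if_neg h1] at h
      obtain ⟨c, hc, _⟩ := h
      exact absurd hc (Set.notMem_empty c)

end Pool.Agent.H85.NE
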